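import Pool.Agent.H660R2.NX.Final

/-!
# Special cases: short queries, bounded memory, few queries
-/

namespace Pool.Agent.H660R2.NX

open Pool.Agent.NPC Turing

attribute [local irreducible] unpair

theorem pow_add_le (c n : ℕ) : n ^ c + c + 1 ≤ n ^ (c + 3) + (c + 3) := by
  rcases Nat.eq_zero_or_pos n with rfl | hn
  · have h1 : 0 ^ c ≤ 1 := by
      cases c <;> simp
    have h2 : 0 ^ (c + 3) = 0 := by simp
    omega
  · have := Nat.pow_le_pow_right hn (show c ≤ c + 3 by omega)
    omega

/-- A set of images of bit strings of length at most `k` is small. -/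
theorem encard_le_of_short {S : Set (List Bool)} {k : ℕ} (φ : List Bool → List Bool)
    (h : ∀ q ∈ S, ∃ s : List Bool, s.length ≤ k ∧ φ s = q) :
    S.encard ≤ ((2 ^ (k + 1) : ℕ) : ℕ∞) := by
  classical
  have h1 : S ⊆ φ '' ((allStr k).toFinset : Set (List Bool)) := by
    intro q hq
    obtain ⟨s, hs, rfl⟩ := h q hq
    exact ⟨s, by simpa [mem_allStr] using hs, rfl⟩
  refine (Set.encard_le_encard h1).trans ((Set.encard_image_le _ _).trans ?_)
  rw [Set.encard_coe_eq_coe_finsetCard]
  have h2 := List.toFinset_card_le (allStr k)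
  have h3 := length_allStr k
  exact_mod_cast (by omega : (allStr k).toFinset.card ≤ 2 ^ (k + 1))

theorem encard_le_few {S : Set (List Bool)} {c n : ℕ}
    (h : S.encard ≤ ((2 ^ (n ^ c + c + 1) : ℕ) : ℕ∞)) :
    S.encard ≤ ((2 ^ (n ^ (c + 3) + (c + 3)) : ℕ) : ℕ∞) := by
  refine h.trans ?_
  have := Nat.pow_le_pow_right (show 0 < 2 by norm_num) (pow_add_le c n)
  exact_mod_cast this

theorem InPNPFew.mono {c : ℕ} {S : Set ℕ} {L : Set (List Bool)} (h : InPNPFew c S L) :
    InPNPFew (c + 3) S L := by
  obtain ⟨f, A, r, a, hf, hA, ha, hx⟩ := h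
  refine ⟨f, A, r, a, hf, hA, fun n => ?_, fun x hS => ⟨(hx x hS).1, ?_⟩⟩
  · have := ha n
    have := pow_add_le c n
    omega
  · refine encard_le_few ((hx x hS).2.trans ?_)
    have := Nat.pow_le_pow_right (show 0 < 2 by norm_num)
      (show x.length ^ c + c ≤ x.length ^ c + c + 1 by omega)
    exact_mod_cast this

theorem InPNPNum.few {c : ℕ} {S : Set ℕ} {L : Set (List Bool)} (h : InPNPNum c S L) :
    InPNPFew (c + 3) S L := by
  obtain ⟨f, A, a, hf, hA, ha, hx⟩ := h
  refine ⟨f, A, Polynomial.X ^ c + Polynomial.C c, a, hf, hA, fun n => ?_, fun x hS => ⟨?_, ?_⟩⟩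
  · have := ha n
    have := pow_add_le c n
    omega
  · simpa using hx x hS
  · refine encard_le_few (encard_le_of_short (fun h => (alg f x (a x.length) h).tail) ?_)
    rintro q ⟨_, h, hl, _, hq⟩
    refine ⟨h, ?_, ?_⟩
    · simp only [Polynomial.eval_add, Polynomial.eval_pow, Polynomial.eval_X,
        Polynomial.eval_C] at hl
      omega
    · simp only [hq, List.tail_cons]

/-! ### Short queries -/

/-- The algorithm stops as soon as it would ask a query that is too long. -/
def cutF (f : List Bool → List Bool) (c : ℕ) (v : List Bool) : List Bool :=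
  if (f v).length ≤ (unpair (unpair v).1).1.length ^ c + c + 1 then f v else []

theorem poly_pow_len {α : Type} [TEnc α] {x : α → List Bool} (c : ℕ) (hx : Poly x) :
    Poly (fun a => (x a).length ^ c + c) := by
  have := UPoly.toPoly (UPoly.eval (UPoly.length hx) (Polynomial.X ^ c + Polynomial.C c))
  exact this.congr fun p => by simp

theorem polyTime_cutF {f : List Bool → List Bool} {c : ℕ} (hf : PolyTime f) :
    PolyTime (cutF f c) := by
  apply polyTime_of_poly'
  have hf' := poly_of_polyTime hf
  have h1 : Poly (fun v : List Bool => (unpair (unpair v).1).1.length ^ c + c) :=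
    poly_pow_len c (by fun_prop)
  unfold cutF
  fun_prop

theorem cutF_query {f : List Bool → List Bool} {c : ℕ} {x a h q : List Bool}
    (hq : q.length ≤ x.length ^ c + c) :
    alg (cutF f c) x a h = false :: q ↔ alg f x a h = false :: q := by
  unfold alg cutF
  rw [unpair_pairBits, unpair_pairBits]
  simp only
  constructor
  · intro h1
    split_ifs at h1
    exact h1
  · intro h1
    rw [if_pos (by rw [h1, List.length_cons]; omega)]
    exact h1

theorem InPNPLen.few {c : ℕ} {S : Set ℕ} {L : Set (List Bool)} (h : InPNPLen c S L) :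
    InPNPFew (c + 3) S L := by
  obtain ⟨f, A, r, a, hf, hA, ha, hx⟩ := h
  refine ⟨cutF f c, A, r, a, polyTime_cutF hf, hA, fun n => ?_, fun x hS => ⟨?_, ?_⟩⟩
  · have := ha n
    have := pow_add_le c n
    omega
  · obtain ⟨⟨h, h1, h2, h3, h4⟩, h5⟩ := hx x hS
    have h6 : Correct (alg (cutF f c) x (a x.length)) A h := by
      intro i hi
      obtain ⟨q, hq, hq'⟩ := h2 i hi
      refine ⟨q, (cutF_query (h5 (h.take i) q ?_ hq)).2 hq, hq'⟩
      exact CorrectF.take (f := f) (A := A) (z := pairBits x (a x.length)) h2 i
    have h7 : alg (cutF f c) x (a x.length) h = alg f x (a x.length) h ∨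
        (alg (cutF f c) x (a x.length) h = [] ∧
          x.length ^ c + c + 1 < (alg f x (a x.length) h).length) := by
      unfold alg cutF
      rw [unpair_pairBits, unpair_pairBits]
      simp only
      split_ifs with h8
      · left; rfl
      · right; exact ⟨rfl, by omega⟩
    refine ⟨h, h1, h6, ?_, ?_⟩
    · intro q hq
      rcases h7 with h7 | h7
      · rw [h7] at hq
        exact h3 q hq
      · rw [h7.1] at hq
        simp at hq
    · rcases h7 with h7 | h7
      · rw [h7]
        exact h4
      · rw [← h4, h7.1]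
        constructor
        · intro h8
          simp at h8
        · intro h8
          rw [h8] at h7
          simp only [List.length_singleton] at h7
          omega
  · refine encard_le_few (encard_le_of_short (fun s => s) ?_)
    rintro q ⟨_, h, _, _, hq⟩
    refine ⟨q, ?_, rfl⟩
    unfold alg cutF at hq
    rw [unpair_pairBits, unpair_pairBits] at hq
    simp only at hq
    split_ifs at hq with h1
    rw [hq, List.length_cons] at h1
    omega

/-! ### Bounded memory -/

/-- Memory with truncation at `k`. -/
def memT (u : List Bool → List Bool) (k : ℕ) (z h : List Bool) : List Bool :=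
  h.foldl (fun s b => (u (pairBits (pairBits z s) [b])).take k) []

/-- The next action of the algorithm with truncated memory. -/
def memF (g u : List Bool → List Bool) (c : ℕ) (v : List Bool) : List Bool :=
  g (pairBits (unpair v).1 (memT u ((unpair (unpair v).1).1.length ^ c + c) (unpair v).1
    (unpair v).2))

theorem length_memT (u : List Bool → List Bool) (k : ℕ) (z h : List Bool) :
    (memT u k z h).length ≤ k := by
  unfold memT
  induction h using List.reverseRecOn with
  | nil => simp
  | append_singleton h b _ =>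
    rw [List.foldl_append, List.foldl_cons, List.foldl_nil, List.length_take]
    omega

theorem polyTime_memF {g u : List Bool → List Bool} {c : ℕ} (hg : PolyTime g) (hu : PolyTime u) :
    PolyTime (memF g u c) := by
  apply polyTime_of_poly'
  have hg' := poly_of_polyTime hg
  have hu' := poly_of_polyTime hu
  have h1 : Poly (fun v : List Bool => (unpair (unpair v).1).1.length ^ c + c) :=
    poly_pow_len c (by fun_prop)
  have h1' : UPoly (fun v : List Bool => (unpair (unpair v).1).1.length ^ c + c) := by
    have h2 : UPoly (fun v : List Bool => (Polynomial.X ^ c + Polynomial.C c : Polynomial ℕ).eval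
      (unpair (unpair v).1).1.length) := UPoly.eval (UPoly.length (by fun_prop)) _
    have e : (fun v : List Bool => (unpair (unpair v).1).1.length ^ c + c) =
        fun v : List Bool => (Polynomial.X ^ c + Polynomial.C c : Polynomial ℕ).eval
      (unpair (unpair v).1).1.length := by
      funext v; simp
    rw [e]
    exact h2
  obtain ⟨q, hq⟩ := NPC.Poly.sz_le h1'
  have h2 : Poly (fun v : List Bool => memT u ((unpair (unpair v).1).1.length ^ c + c)
      (unpair v).1 (unpair v).2) := by
    unfold memT
    refine NPC.Poly.foldl (s := fun _ : List Bool => ([] : List Bool))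
      (F := fun v s b => (u (pairBits (pairBits (unpair v).1 s) [b])).take
        ((unpair (unpair v).1).1.length ^ c + c)) (by fun_prop) (by fun_prop) ?_ (4 * q + 1) ?_
    · refine poly_take (hu'.comp (by fun_prop)) (h1.comp (by fun_prop))
    · intro v k hk
      have h3 := length_memT u ((unpair (unpair v).1).1.length ^ c + c) (unpair v).1
        ((unpair v).2.take k)
      have h4 := sz_listBool_le (memT u ((unpair (unpair v).1).1.length ^ c + c) (unpair v).1
        ((unpair v).2.take k))
      have h5 := hq v
      beta_reduce at h5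
      have h6 := length_lt_sz (List.replicate ((unpair (unpair v).1).1.length ^ c + c) ())
      rw [List.length_replicate] at h6
      unfold memT at h3 h4
      simp only [Polynomial.eval_add, Polynomial.eval_mul, Polynomial.eval_ofNat,
        Polynomial.eval_one]
      omega
  unfold memF
  exact hg'.comp (by fun_prop)

theorem alg_memF (g u : List Bool → List Bool) (c : ℕ) (x a h : List Bool) :
    alg (memF g u c) x a h = g (pairBits (pairBits x a)
      (memT u (x.length ^ c + c) (pairBits x a) h)) := by
  unfold alg memF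
  rw [unpair_pairBits, unpair_pairBits]

theorem memT_eq (u : List Bool → List Bool) (k : ℕ) (x a : List Bool) :
    ∀ h : List Bool, (∀ i ≤ h.length, (mem u x a (h.take i)).length ≤ k) →
      memT u k (pairBits x a) h = mem u x a h := by
  intro h
  induction h using List.reverseRecOn with
  | nil => intro _; rfl
  | append_singleton h b ih =>
    intro hk
    have h1 : memT u k (pairBits x a) h = mem u x a h := by
      apply ih
      intro i hi
      have := hk i (by simp; omega)
      rwa [List.take_append_of_le_length hi] at this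
    have h2 := hk (h ++ [b]).length le_rfl
    rw [List.take_length] at h2
    unfold memT at h1 ⊢
    unfold mem at h1 h2 ⊢
    rw [List.foldl_append, List.foldl_cons, List.foldl_nil] at h2 ⊢
    rw [List.foldl_append, List.foldl_cons, List.foldl_nil, h1]
    exact List.take_of_length_le h2

theorem InPNPMem.few {c : ℕ} {S : Set ℕ} {L : Set (List Bool)} (h : InPNPMem c S L) :
    InPNPFew (c + 3) S L := by
  obtain ⟨g, u, A, r, a, hg, hu, hA, ha, hx⟩ := h
  refine ⟨memF g u c, A, r, a, polyTime_memF hg hu, hA, fun n => ?_, fun x hS => ⟨?_, ?_⟩⟩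
  · have := ha n
    have := pow_add_le c n
    omega
  · obtain ⟨⟨h, h1, h2, h3, h4⟩, h5⟩ := hx x hS
    have htake : ∀ i, Correct (memAlg g u x (a x.length)) A (h.take i) := by
      intro i j hj
      rw [List.length_take] at hj
      obtain ⟨q, hq, hq'⟩ := h2 j (by omega)
      refine ⟨q, ?_, ?_⟩
      · rw [List.take_take, min_eq_left (by omega)]
        exact hq
      · rw [List.getElem_take]
        exact hq'
    have key : ∀ i, alg (memF g u c) x (a x.length) (h.take i) =
        memAlg g u x (a x.length) (h.take i) := by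
      intro i
      rw [alg_memF, memAlg]
      rw [memT_eq]
      intro j _
      rw [List.take_take]
      exact h5 _ (htake _)
    have key' := key h.length
    rw [List.take_length] at key'
    refine ⟨h, h1, ?_, ?_, ?_⟩
    · intro i hi
      rw [key i]
      exact h2 i hi
    · rw [key']
      exact h3
    · rw [key']
      exact h4
  · refine encard_le_few (encard_le_of_short
      (fun s => (g (pairBits (pairBits x (a x.length)) s)).tail) ?_)
    rintro q ⟨_, h, _, _, hq⟩
    rw [alg_memF] at hq
    exact ⟨_, length_memT u _ _ h, by rw [hq, List.tail_cons]⟩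

/-! ### The classes exhaust `P^NP` -/

theorem eval_le_pow_add (r : Polynomial ℕ) : ∃ c : ℕ, ∀ n, r.eval n ≤ n ^ c + c := by
  refine ⟨r.eval 0 + r.eval 1 + r.natDegree, fun n => ?_⟩
  rcases Nat.lt_or_ge n 2 with hn | hn
  · have : n = 0 ∨ n = 1 := by omega
    rcases this with rfl | rfl
    · exact le_trans (show r.eval 0 ≤ r.eval 0 + r.eval 1 + r.natDegree by omega)
        (Nat.le_add_left _ _)
    · exact le_trans (show r.eval 1 ≤ r.eval 0 + r.eval 1 + r.natDegree by omega)
        (Nat.le_add_left _ _)
  · have h1 := eval_le_pow r (show 1 ≤ n by omega)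
    have h2 : r.eval 1 ≤ n ^ r.eval 1 := (Nat.lt_pow_self (by omega)).le
    have h3 : r.eval 1 * n ^ r.natDegree ≤ n ^ (r.eval 0 + r.eval 1 + r.natDegree) := by
      calc r.eval 1 * n ^ r.natDegree ≤ n ^ r.eval 1 * n ^ r.natDegree :=
            Nat.mul_le_mul_right _ h2
        _ = n ^ (r.eval 1 + r.natDegree) := by rw [← pow_add]
        _ ≤ _ := Nat.pow_le_pow_right (by omega) (by omega)
    omega

theorem InPNP.few {L : Set (List Bool)} (h : InPNP L) : ∃ c, InPNPFew c Set.univ L := by
  obtain ⟨f, A, r, hf, hA, hx⟩ := h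
  obtain ⟨c, hc⟩ := eval_le_pow_add (r + 1)
  refine ⟨c, f, A, r, fun _ => [], hf, hA, fun n => by simp, fun x _ => ⟨hx x, ?_⟩⟩
  have h1 := encard_le_of_short (S := YesQueries (alg f x []) A (r.eval x.length))
    (k := r.eval x.length) (fun h => (alg f x [] h).tail) (by
      rintro q ⟨_, h, hl, _, hq⟩
      exact ⟨h, hl.le, by simp only [hq, List.tail_cons]⟩)
  refine h1.trans ?_
  have h2 := hc x.length
  rw [Polynomial.eval_add, Polynomial.eval_one] at h2
  have := Nat.pow_le_pow_right (show 0 < 2 by norm_num) h2
  exact_mod_cast this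

theorem InPNPFew.poly {c : ℕ} {L : Set (List Bool)} (h : InPNPFew c Set.univ L) :
    InPNPPoly L := by
  obtain ⟨f, A, r, a, hf, hA, ha, hx⟩ := h
  exact ⟨f, A, r, Polynomial.X ^ c + Polynomial.C c, a, hf, hA, fun n => by simpa using ha n,
    fun x => (hx x (Set.mem_univ _)).1⟩

/-- **Main theorem.** -/
theorem main_all : (∀ c : ℕ, ∃ L : Set (List Bool), InNEXP L ∧ ¬ InPNPFew c Set.univ L ∧
      ¬ InPNPLen c Set.univ L ∧ ¬ InPNPMem c Set.univ L ∧ ¬ InPNPNum c Set.univ L) ∧
    ((∃ L : Set (List Bool), InNEXP L ∧ ¬ InPNPPoly L) ∨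
      ∀ c : ℕ, ∃ L : Set (List Bool), InEXP L ∧ ∀ S : Set ℕ, S.Infinite →
        ¬ InPNPFew c S L ∧ ¬ InPNPLen c S L ∧ ¬ InPNPMem c S L ∧ ¬ InPNPNum c S L) ∧
    ∀ L : Set (List Bool), InPNP L → ∃ c : ℕ, InPNPFew c Set.univ L := by
  have key : ∀ (c : ℕ) (S : Set ℕ) (L : Set (List Bool)), ¬ InPNPFew (c + 3) S L →
      ¬ InPNPFew c S L ∧ ¬ InPNPLen c S L ∧ ¬ InPNPMem c S L ∧ ¬ InPNPNum c S L :=
    fun c S L h2 =>
      ⟨fun h => h2 h.mono, fun h => h2 h.few, fun h => h2 h.few, fun h => h2 h.few⟩
  refine ⟨fun c => ?_, ?_, fun L h => h.few⟩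
  · by_cases hK : InPNPPoly KSet
    · obtain ⟨L, _, h1, h2⟩ := main hK (c + 3)
      exact ⟨L, h1, key c _ L (h2 _ Set.infinite_univ)⟩
    · exact ⟨KSet, inNEXP_KSet, key c _ KSet fun h => hK h.poly⟩
  · by_cases hK : InPNPPoly KSet
    · right
      intro c
      obtain ⟨L, h1, _, h2⟩ := main hK (c + 3)
      exact ⟨L, h1, fun S hS => key c S L (h2 S hS)⟩
    · exact Or.inl ⟨KSet, inNEXP_KSet, hK⟩

end Pool.Agent.H660R2.NX
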