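import Pool.Agent.NPC.Defs

/-!
# Exponential nondeterministic time and polynomial-time query algorithms with an `NP` oracle
-/

namespace Pool.Agent.H660R2.NX

open Pool.Agent.NPC

/-- The class `NEXP`: languages with certificates of length at most `2 ^ p(n)` that are verifiable
in time polynomial in the length of the input together with the certificate. -/
def InNEXP (L : Set (List Bool)) : Prop :=
  ∃ (V : List Bool → List Bool) (p : Polynomial ℕ), PolyTime V ∧
    ∀ x, x ∈ L ↔ ∃ w : List Bool, w.length ≤ 2 ^ p.eval x.length ∧ V (pairBits x w) = [true]

/-- The class `EXP`: languages decided in time polynomial in the length of the input padded with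
`2 ^ p(n)` symbols, for a polynomial `p`. -/
def InEXP (L : Set (List Bool)) : Prop :=
  ∃ (V : List Bool → List Bool) (p : Polynomial ℕ), PolyTime V ∧
    ∀ x, x ∈ L ↔ V (pairBits x (List.replicate (2 ^ p.eval x.length) false)) = [true]

/-! ### Computations with oracle queries

The behaviour of an algorithm with an oracle, on a fixed input, is described by the function `act`
that maps the list `h` of the oracle answers received so far to the next action `act h`, a bit
string: if this string is `false :: q` then the next action is the query `q`; if it is `[true]` then
the algorithm halts and accepts; in all other cases it halts and rejects. -/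

/-- `Correct act A h` says that `h` is the list of the correct answers of the oracle `A` to the
first `h.length` queries. -/
def Correct (act : List Bool → List Bool) (A : Set (List Bool)) (h : List Bool) : Prop :=
  ∀ (i : ℕ) (hi : i < h.length), ∃ q : List Bool, act (h.take i) = false :: q ∧
    (h[i] = true ↔ q ∈ A)

/-- `YesCorrect act A h` says that `h` is a list of possible answers to the first `h.length`
queries in which all answers `true` are correct (answers `false` may be wrong). -/
def YesCorrect (act : List Bool → List Bool) (A : Set (List Bool)) (h : List Bool) : Prop :=
  ∀ (i : ℕ) (hi : i < h.length), ∃ q : List Bool, act (h.take i) = false :: q ∧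
    (h[i] = true → q ∈ A)

/-- With the oracle `A`, the algorithm halts after at most `r` queries, and it accepts if and only
if the statement `P` holds. -/
def Decides (act : List Bool → List Bool) (A : Set (List Bool)) (r : ℕ) (P : Prop) : Prop :=
  ∃ h : List Bool, h.length ≤ r ∧ Correct act A h ∧ (∀ q, act h ≠ false :: q) ∧
    (act h = [true] ↔ P)

/-- The potential yes-queries: the elements of `A` that are asked as one of the first `r` queries
for some list of answers in which all answers `true` are correct. -/
def YesQueries (act : List Bool → List Bool) (A : Set (List Bool)) (r : ℕ) : Set (List Bool) :=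
  {q | q ∈ A ∧ ∃ h : List Bool, h.length < r ∧ YesCorrect act A h ∧ act h = false :: q}

/-- The algorithm that computes its next action in polynomial time, with `f`, from the input `x`,
the advice `a` and the answers received so far. -/
def alg (f : List Bool → List Bool) (x a h : List Bool) : List Bool :=
  f (pairBits (pairBits x a) h)

/-- The memory content of an algorithm with input `x`, advice `a` and memory update `u`, after the
answers `h`: the memory is empty at the beginning, and the answer `b` changes the memory content
`s` into `u (pairBits (pairBits (pairBits x a) s) [b])`. -/
def mem (u : List Bool → List Bool) (x a h : List Bool) : List Bool :=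
  h.foldl (fun s b => u (pairBits (pairBits (pairBits x a) s) [b])) []

/-- The algorithm that computes its next action in polynomial time, with `g`, from the input `x`,
the advice `a` and its memory content. -/
def memAlg (g u : List Bool → List Bool) (x a h : List Bool) : List Bool :=
  g (pairBits (pairBits x a) (mem u x a h))

/-! ### The classes -/

/-- The class `P^NP`: polynomially many queries to an oracle in `NP`, where each action is computed
in polynomial time from the input and the answers received so far. -/
def InPNP (L : Set (List Bool)) : Prop :=
  ∃ (f : List Bool → List Bool) (A : Set (List Bool)) (r : Polynomial ℕ),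
    PolyTime f ∧ InNP A ∧ ∀ x : List Bool, Decides (alg f x []) A (r.eval x.length) (x ∈ L)

/-- The class `P^NP/poly`: the same, with advice of polynomial length. -/
def InPNPPoly (L : Set (List Bool)) : Prop :=
  ∃ (f : List Bool → List Bool) (A : Set (List Bool)) (r s : Polynomial ℕ) (a : ℕ → List Bool),
    PolyTime f ∧ InNP A ∧ (∀ n, (a n).length ≤ s.eval n) ∧
    ∀ x : List Bool, Decides (alg f x (a x.length)) A (r.eval x.length) (x ∈ L)

/-- `InPNPFew c S L`: on the inputs whose length `n` is in `S`, the language `L` is decided in
polynomial time with an oracle in `NP`, with `n ^ c + c` bits of advice and with at most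
`2 ^ (n ^ c + c)` potential yes-queries.  The number and the length of the queries are bounded by
arbitrary polynomials. -/
def InPNPFew (c : ℕ) (S : Set ℕ) (L : Set (List Bool)) : Prop :=
  ∃ (f : List Bool → List Bool) (A : Set (List Bool)) (r : Polynomial ℕ) (a : ℕ → List Bool),
    PolyTime f ∧ InNP A ∧ (∀ n, (a n).length ≤ n ^ c + c) ∧
    ∀ x : List Bool, x.length ∈ S →
      Decides (alg f x (a x.length)) A (r.eval x.length) (x ∈ L) ∧
      (YesQueries (alg f x (a x.length)) A (r.eval x.length)).encard ≤
        ((2 ^ (x.length ^ c + c) : ℕ) : ℕ∞)

/-- `InPNPLen c S L`: on the inputs whose length `n` is in `S`, the language `L` is decided in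
polynomial time with an oracle in `NP`, with `n ^ c + c` bits of advice, and all the queries asked
(in the computation with correct answers) have length at most `n ^ c + c`.  The number of the
queries is bounded by an arbitrary polynomial, and the oracle is an arbitrary language in `NP`. -/
def InPNPLen (c : ℕ) (S : Set ℕ) (L : Set (List Bool)) : Prop :=
  ∃ (f : List Bool → List Bool) (A : Set (List Bool)) (r : Polynomial ℕ) (a : ℕ → List Bool),
    PolyTime f ∧ InNP A ∧ (∀ n, (a n).length ≤ n ^ c + c) ∧
    ∀ x : List Bool, x.length ∈ S →
      Decides (alg f x (a x.length)) A (r.eval x.length) (x ∈ L) ∧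
      ∀ h q : List Bool, Correct (alg f x (a x.length)) A h →
        alg f x (a x.length) h = false :: q → q.length ≤ x.length ^ c + c

/-- `InPNPMem c S L`: on the inputs whose length `n` is in `S`, the language `L` is decided with an
oracle in `NP` and with `n ^ c + c` bits of advice by an algorithm that remembers, from one query
to the next one, at most `n ^ c + c` bits (in the computation with correct answers): the next
action and the next memory content are computed in polynomial time from the input, the advice and
the memory content.  The number and the length of the queries are bounded by arbitrary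
polynomials. -/
def InPNPMem (c : ℕ) (S : Set ℕ) (L : Set (List Bool)) : Prop :=
  ∃ (g u : List Bool → List Bool) (A : Set (List Bool)) (r : Polynomial ℕ) (a : ℕ → List Bool),
    PolyTime g ∧ PolyTime u ∧ InNP A ∧ (∀ n, (a n).length ≤ n ^ c + c) ∧
    ∀ x : List Bool, x.length ∈ S →
      Decides (memAlg g u x (a x.length)) A (r.eval x.length) (x ∈ L) ∧
      ∀ h : List Bool, Correct (memAlg g u x (a x.length)) A h →
        (mem u x (a x.length) h).length ≤ x.length ^ c + c

/-- `InPNPNum c S L`: on the inputs whose length `n` is in `S`, the language `L` is decided in
polynomial time with an oracle in `NP`, with `n ^ c + c` bits of advice and with at most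
`n ^ c + c` queries. -/
def InPNPNum (c : ℕ) (S : Set ℕ) (L : Set (List Bool)) : Prop :=
  ∃ (f : List Bool → List Bool) (A : Set (List Bool)) (a : ℕ → List Bool),
    PolyTime f ∧ InNP A ∧ (∀ n, (a n).length ≤ n ^ c + c) ∧
    ∀ x : List Bool, x.length ∈ S →
      Decides (alg f x (a x.length)) A (x.length ^ c + c) (x ∈ L)

end Pool.Agent.H660R2.NX
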