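import Pool.Agent.H660R2.NX.Run

/-!
# Deterministic exponential-time simulation with advice
-/

namespace Pool.Agent.H660R2.NX

open Pool.Agent.NPC Turing

theorem exists_solver {K : Set (List Bool)} (hK : InPNPPoly K) :
    ∃ (F : List Bool → List Bool → List Unit → Bool) (P s : Polynomial ℕ) (γ : ℕ → List Bool),
      Poly (fun p : List Bool × List Bool × List Unit => F p.1 p.2.1 p.2.2) ∧
      (∀ n, (γ n).length ≤ s.eval n) ∧
      ∀ (y : List Bool) (pad : List Unit), 2 ^ P.eval y.length ≤ pad.length →
        (F y (γ y.length) pad = true ↔ y ∈ K) := by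
  classical
  obtain ⟨f, A, r, s, a, hf, hA, ha, h⟩ := hK
  obtain ⟨V, pA, hV, hVA⟩ := hA
  obtain ⟨pf, hpf⟩ := length_bound hf
  have hf' := poly_of_polyTime hf
  have hV' := poly_of_polyTime hV
  let O : List Unit → List Bool → Bool := fun pad q =>
    (allB (pA.eval q.length) pad).any (fun w => decide (V (pairBits q w) = [true]))
  have hO : Poly (fun p : List Unit × List Bool => O p.1 p.2) := by
    have h1 : Poly (fun p : List Unit × List Bool => allB (pA.eval p.2.length) p.1) := by
      refine poly_allB (UPoly.eval (UPoly.length (by fun_prop)) pA) (by fun_prop)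
    fun_prop
  refine ⟨fun y g pad => decide (run f (O pad) (pairBits y g) (r.eval y.length + 1) = some true),
    pA.comp (pf.comp (2 * (2 * Polynomial.X + 1 + s) + 1 + r)), s, a, ?_, ha, ?_⟩
  · have h1 : Poly (fun p : List Bool × List Bool × List Unit =>
        run f (O p.2.2) (pairBits p.1 p.2.1) (r.eval p.1.length + 1)) := by
      refine poly_run hf' (hO.comp (f := fun p : (List Bool × List Bool × List Unit) × List Bool =>
        (p.1.2.2, p.2)) (by fun_prop)) (by fun_prop) ?_
      exact UPoly.add (UPoly.eval (UPoly.length (by fun_prop)) r) (UPoly.const 1)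
    fun_prop
  · intro y pad hpad
    have hd := h y
    have hO2 : ∀ h' q, h'.length < r.eval y.length →
        CorrectF f A (pairBits y (a y.length)) h' →
        f (pairBits (pairBits y (a y.length)) h') = false :: q → (O pad q = true ↔ q ∈ A) := by
      intro h' q hl _ hq
      have h1 : q.length ≤ pf.eval (2 * (2 * y.length + 1 + s.eval y.length) + 1 +
          r.eval y.length) := by
        have h2 := hpf (pairBits (pairBits y (a y.length)) h')
        rw [hq, List.length_cons, length_pairBits, length_pairBits] at h2
        have h3 := ha y.length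
        have h4 := eval_mono pf (show 2 * (2 * y.length + 1 + (a y.length).length) + 1 + h'.length
          ≤ 2 * (2 * y.length + 1 + s.eval y.length) + 1 + r.eval y.length by omega)
        omega
      have h2 := eval_mono pA h1
      have h3 : 2 ^ pA.eval q.length ≤ pad.length := by
        refine le_trans (Nat.pow_le_pow_right (by norm_num) ?_) hpad
        simpa using h2
      have h4 : O pad q = (allStr (pA.eval q.length)).any
          (fun w => decide (V (pairBits q w) = [true])) := by
        show (allB (pA.eval q.length) pad).any _ = _
        rw [allB_eq h3]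
      rw [h4, List.any_eq_true, hVA]
      constructor
      · rintro ⟨w, hw, hw'⟩
        exact ⟨w, mem_allStr.1 hw, by simpa using hw'⟩
      · rintro ⟨w, hw, hw'⟩
        exact ⟨w, mem_allStr.2 hw, by simpa using hw'⟩
    have h5 := run_decides hd hO2 (Nat.lt_succ_self _)
    simp only [Nat.succ_eq_add_one] at h5
    rw [decide_eq_true_iff, h5]
    simp

end Pool.Agent.H660R2.NX
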