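import Pool.Agent.H660R2.NX.Greedy
import Pool.Agent.H660R2.NX.Solver

/-!
# The diagonal language
-/

namespace Pool.Agent.H660R2.NX

open Pool.Agent.NPC Turing
open TDec (dec dec_toT toT_dec poly_dec)

attribute [local irreducible] unpair

theorem poly_bits {α β : Type} [TEnc α] [TEnc β] {g : α → β} (hg : Poly g) :
    Poly (fun a => bits (g a)) := by
  have h : PC (bits : α → List Bool) (fun x : List Bool => x) (fun a => bits (g a)) := hg
  exact PC.comp (g := fun x => x) (f := fun a => bits (g a)) PC.rawIn h

/-- Number of padding units in an instance. -/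
def mm (c n : ℕ) : ℕ := n * (n ^ c + c + n + 3)

section

variable (F : List Bool → List Bool → List Unit → Bool) (c : ℕ)

/-- The answer to an instance about the input `x`, the advice `α` and the number `t`, found with
the help of the advice table `g`. -/
def ask (g : List (List Bool)) (e : Code) (x α : List Bool) (t : ℕ) (pad : List Unit) : Bool :=
  F (ins e (bits (x, α, t)) (mm c x.length))
    (g.getD (ins e (bits (x, α, t)) (mm c x.length)).length []) pad

/-- The number of positive `t` in the range for which the first question is answered yes. -/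
def tcount (g : List (List Bool)) (e : Code) (x α : List Bool) (pad : List Unit) : ℕ :=
  ((List.range pad.length).filter (fun t => decide (1 ≤ t) &&
    (decide (t.bits.length ≤ x.length ^ c + c + 1) && ask F c g e x α t pad))).length

/-- The prediction for the input `x` with parameter `ρ`. -/
def pred (E : Code × Code) (x ρ : List Bool) (pad : List Unit) : Bool :=
  (unbits (List (List Bool) × List Bool) ρ).elim false (fun g =>
    ask F c g.1 E.2 x g.2 (tcount F c g.1 E.1 x g.2 pad) pad)

/-- The `j`-th test input. -/
def xj (cc : List Bool) (l j : ℕ) : List Bool :=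
  pairBits cc (j.bits ++ List.replicate (l - j.bits.length) false)

variable (Sb : Polynomial ℕ)

/-- The diagonal decision on the input `x`, computed with padding. -/
def GG (x : List Bool) (pad : List Unit) : Bool :=
  (unbits (Code × Code) (unpair x).1).elim false (fun E =>
    (((List.range pad.length).filter (fun j => decide (j ≤ valB (unpair x).2))).foldl
      (fun s j => gstep (fun ρ => pred F c E (xj (unpair x).1 (unpair x).2.length j) ρ pad) s)
      (allB (Sb.eval x.length) pad, false)).2)

/-- The test defining the diagonal language. -/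
def vD (P : Polynomial ℕ) (x w : List Bool) : Bool :=
  decide (P.eval x.length < w.length.bits.length) && GG F c Sb x (w.map (fun _ => ()))

/-- The diagonal language. -/
def DSet (P : Polynomial ℕ) : Set (List Bool) :=
  {x | GG F c Sb x (List.replicate (2 ^ P.eval x.length) ()) = true}

end

section Poly

variable {F : List Bool → List Bool → List Unit → Bool} {c : ℕ} {Sb : Polynomial ℕ}
  {α : Type} [TEnc α]

theorem uPoly_mm {n : α → ℕ} (hn : UPoly n) : UPoly (fun a => mm c (n a)) := by
  have h := UPoly.eval hn (Polynomial.X * (Polynomial.X ^ c + Polynomial.C c + Polynomial.X + 3))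
  have e : (fun a => mm c (n a)) = fun a => (Polynomial.X * (Polynomial.X ^ c + Polynomial.C c +
      Polynomial.X + 3) : Polynomial ℕ).eval (n a) := by
    funext a
    simp [mm]
  rw [e]
  exact h

theorem poly_ask (hF : Poly (fun p : List Bool × List Bool × List Unit => F p.1 p.2.1 p.2.2))
    {g : α → List (List Bool)} {e : α → Code} {x β : α → List Bool} {t : α → ℕ}
    {pad : α → List Unit} (hg : Poly g) (he : Poly e) (hx : Poly x) (hβ : Poly β) (ht : Poly t)
    (hpad : Poly pad) : Poly (fun a => ask F c (g a) (e a) (x a) (β a) (t a) (pad a)) := by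
  unfold ask
  have h1 : Poly (fun a => ins (e a) (bits (x a, β a, t a)) (mm c (x a).length)) := by
    unfold ins
    refine poly_bits (NPC.Poly.pair he (NPC.Poly.pair (poly_bits (by fun_prop)) ?_))
    exact uPoly_mm (UPoly.length hx)
  exact hF.comp (f := fun a => (ins (e a) (bits (x a, β a, t a)) (mm c (x a).length),
    (g a).getD (ins (e a) (bits (x a, β a, t a)) (mm c (x a).length)).length [], pad a))
    (by fun_prop)

theorem poly_tcount (hF : Poly (fun p : List Bool × List Bool × List Unit => F p.1 p.2.1 p.2.2))
    {g : α → List (List Bool)} {e : α → Code} {x β : α → List Bool}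
    {pad : α → List Unit} (hg : Poly g) (he : Poly e) (hx : Poly x) (hβ : Poly β)
    (hpad : Poly pad) : Poly (fun a => tcount F c (g a) (e a) (x a) (β a) (pad a)) := by
  unfold tcount
  have h1 : Poly (fun a => List.range (pad a).length) := NPC.Poly.range_length hpad
  have h2 : Poly (fun p : α × ℕ => p.2.bits) := NPC.Poly.natBits (by fun_prop)
  have h3 : Poly (fun p : α × ℕ => (x p.1).length ^ c + c + 1) := by
    have := UPoly.toPoly (UPoly.eval (UPoly.length (hx.comp (f := fun p : α × ℕ => p.1)
      (by fun_prop))) (Polynomial.X ^ c + Polynomial.C c + 1))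
    exact this.congr fun p => by simp
  refine NPC.Poly.length (NPC.Poly.filter h1 (NPC.Poly.and (by fun_prop)
    (NPC.Poly.and (by fun_prop) ?_)))
  exact poly_ask hF (hg.comp (by fun_prop)) (he.comp (by fun_prop)) (hx.comp (by fun_prop))
    (hβ.comp (by fun_prop)) (by fun_prop) (hpad.comp (by fun_prop))

theorem poly_pred (hF : Poly (fun p : List Bool × List Bool × List Unit => F p.1 p.2.1 p.2.2))
    {E : α → Code × Code} {x ρ : α → List Bool} {pad : α → List Unit} (hE : Poly E) (hx : Poly x)
    (hρ : Poly ρ) (hpad : Poly pad) : Poly (fun a => pred F c (E a) (x a) (ρ a) (pad a)) := by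
  unfold pred
  have h0 : Poly (unbits (List (List Bool) × List Bool)) := poly_unbits
  refine NPC.Poly.optElim (h0.comp hρ) (by fun_prop) ?_
  have hx' : Poly (fun p : α × (List (List Bool) × List Bool) => x p.1) := hx.comp (by fun_prop)
  have hpad' : Poly (fun p : α × (List (List Bool) × List Bool) => pad p.1) :=
    hpad.comp (by fun_prop)
  have hE' : Poly (fun p : α × (List (List Bool) × List Bool) => E p.1) := hE.comp (by fun_prop)
  exact poly_ask hF (by fun_prop) (by fun_prop) hx' (by fun_prop)
    (poly_tcount hF (by fun_prop) (by fun_prop) hx' (by fun_prop) hpad') hpad'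

theorem poly_xj {cc : α → List Bool} {l : α → List Bool} {j : α → ℕ} (hcc : Poly cc)
    (hl : Poly l) (hj : Poly j) : Poly (fun a => xj (cc a) (l a).length (j a)) := by
  unfold xj
  have h1 : Poly (fun a => (j a).bits) := NPC.Poly.natBits hj
  have h2 : UPoly (fun a => (l a).length - (j a).bits.length) := by
    refine UPoly.of_le ?_ (UPoly.length hl) (fun a => Nat.sub_le _ _)
    fun_prop
  have h3 : Poly (fun a => (List.replicate ((l a).length - (j a).bits.length) ()).map
      (fun _ => false)) := by
    have h2' : Poly (fun a => List.replicate ((l a).length - (j a).bits.length) ()) := h2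
    fun_prop
  have h4 : Poly (fun a => List.replicate ((l a).length - (j a).bits.length) false) :=
    h3.congr fun a => by simp
  fun_prop

theorem poly_GG (hF : Poly (fun p : List Bool × List Bool × List Unit => F p.1 p.2.1 p.2.2)) :
    Poly (fun p : List Bool × List Unit => GG F c Sb p.1 p.2) := by
  unfold GG
  have h0 : Poly (unbits (Code × Code)) := poly_unbits
  refine NPC.Poly.optElim (h0.comp (by fun_prop)) (by fun_prop) ?_
  refine NPC.Poly.snd ?_
  have h1 : Poly (fun p : (List Bool × List Unit) × (Code × Code) =>
      allB (Sb.eval p.1.1.length) p.1.2) :=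
    poly_allB (UPoly.eval (UPoly.length (by fun_prop)) Sb) (by fun_prop)
  have h2 : Poly (fun p : (List Bool × List Unit) × (Code × Code) => List.range p.1.2.length) :=
    NPC.Poly.range_length (by fun_prop)
  have h3 : Poly (fun p : ((List Bool × List Unit) × (Code × Code)) × ℕ =>
      valB (unpair p.1.1.1).2) := NPC.Poly.valBits (by fun_prop)
  obtain ⟨q, hq⟩ := NPC.Poly.sz_le h1
  obtain ⟨q', hq'⟩ := NPC.Poly.sz_le h2
  refine NPC.Poly.foldl (s := fun p : (List Bool × List Unit) × (Code × Code) =>
      (allB (Sb.eval p.1.1.length) p.1.2, false))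
    (F := fun p s j => gstep (fun ρ => pred F c p.2
      (xj (unpair p.1.1).1 (unpair p.1.1).2.length j) ρ p.1.2) s)
    (NPC.Poly.filter h2 (by fun_prop)) (by fun_prop) ?_ (q + 3 * q' + 10) ?_
  · have h4 : Poly (fun p : (((List Bool × List Unit) × (Code × Code)) ×
        (List (List Bool) × Bool) × ℕ) × List Bool =>
        pred F c p.1.1.2 (xj (unpair p.1.1.1.1).1 (unpair p.1.1.1.1).2.length p.1.2.2) p.2
          p.1.1.1.2) :=
      poly_pred hF (by fun_prop) (poly_xj (l := fun p : (((List Bool × List Unit) ×
        (Code × Code)) × (List (List Bool) × Bool) × ℕ) × List Bool => (unpair p.1.1.1.1).2)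
        (by fun_prop) (by fun_prop) (by fun_prop))
        (by fun_prop) (by fun_prop)
    have h5 : Poly (fun p : ((List Bool × List Unit) × (Code × Code)) ×
        (List (List Bool) × Bool) × ℕ => p.2.1.1.filter (fun ρ =>
        pred F c p.1.2 (xj (unpair p.1.1.1).1 (unpair p.1.1.1).2.length p.2.2) ρ p.1.1.2)) :=
      NPC.Poly.filter (by fun_prop) h4
    have h6 : Poly (fun p : ((List Bool × List Unit) × (Code × Code)) ×
        (List (List Bool) × Bool) × ℕ => p.2.1.1.filter (fun ρ =>
        !(pred F c p.1.2 (xj (unpair p.1.1.1).1 (unpair p.1.1.1).2.length p.2.2) ρ p.1.1.2))) :=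
      NPC.Poly.filter (by fun_prop) (NPC.Poly.not h4)
    unfold gstep
    refine NPC.Poly.ite ?_ (NPC.Poly.pair h5 (by fun_prop)) (NPC.Poly.pair h6 (by fun_prop))
    exact NPC.Poly.decide_le (by fun_prop) (by fun_prop)
  · intro p k hk
    have h7 : ∀ (l : List ℕ) (s : List (List Bool) × Bool), sz (l.foldl (fun s j =>
        gstep (fun ρ => pred F c p.2 (xj (unpair p.1.1).1 (unpair p.1.1).2.length j) ρ p.1.2) s)
        s) ≤ sz s + 3 * l.length := by
      intro l
      induction l with
      | nil => intro s; simp
      | cons a l ih =>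
        intro s
        rw [List.foldl_cons]
        refine (ih _).trans ?_
        have := sz_gstep (fun ρ => pred F c p.2
          (xj (unpair p.1.1).1 (unpair p.1.1).2.length a) ρ p.1.2) s
        rw [List.length_cons]
        omega
    refine (h7 _ _).trans ?_
    have h8 := hq p
    have h9 := hq' p
    have h10 := length_lt_sz (List.range p.1.2.length)
    have h11 : (((List.range p.1.2.length).filter
        (fun j => decide (j ≤ valB (unpair p.1.1).2))).take k).length ≤
        (List.range p.1.2.length).length :=
      (List.length_take_le' _ _).trans (List.length_filter_le _ _)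
    have h12 := sz_bool_le false
    simp only [sz_pair, Polynomial.eval_add, Polynomial.eval_mul, Polynomial.eval_ofNat]
    omega

theorem poly_vD (hF : Poly (fun p : List Bool × List Bool × List Unit => F p.1 p.2.1 p.2.2))
    (P : Polynomial ℕ) : Poly (fun p : List Bool × List Bool => vD F c Sb P p.1 p.2) := by
  unfold vD
  have h1 : Poly (fun p : List Bool × List Bool => P.eval p.1.length) :=
    UPoly.toPoly (UPoly.eval (UPoly.length (by fun_prop)) P)
  have h2 : Poly (fun p : List Bool × List Bool => p.2.length.bits) :=
    NPC.Poly.natBits (by fun_prop)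
  refine NPC.Poly.and (by fun_prop) ?_
  exact (poly_GG hF).comp (f := fun p : List Bool × List Bool => (p.1, p.2.map (fun _ => ())))
    (by fun_prop)

theorem inEXP_DSet (hF : Poly (fun p : List Bool × List Bool × List Unit => F p.1 p.2.1 p.2.2))
    (P : Polynomial ℕ) : InEXP (DSet F c Sb P) := by
  refine ⟨testFun (fun x w => GG F c Sb x (w.map (fun _ => ()))), P, polyTime_testFun ?_,
    fun x => ?_⟩
  · exact (poly_GG hF).comp (f := fun p : List Bool × List Bool => (p.1, p.2.map (fun _ => ())))
      (by fun_prop)
  · rw [testFun_pairBits, List.map_replicate]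
    rfl

theorem inNEXP_DSet (hF : Poly (fun p : List Bool × List Bool × List Unit => F p.1 p.2.1 p.2.2))
    (P : Polynomial ℕ) : InNEXP (DSet F c Sb P) := by
  refine ⟨testFun (vD F c Sb P), P, polyTime_testFun (poly_vD hF P), fun x => ?_⟩
  simp only [testFun_pairBits]
  unfold DSet vD
  simp only [Set.mem_ofPred_eq, Bool.and_eq_true, decide_eq_true_eq, Nat.size_eq_bits_len,
    Nat.lt_size]
  constructor
  · intro h
    refine ⟨List.replicate (2 ^ P.eval x.length) false, by simp, by simp, ?_⟩
    rw [List.map_replicate]
    exact h
  · rintro ⟨w, h1, h2, h3⟩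
    have h4 : w.map (fun _ => ()) = List.replicate (2 ^ P.eval x.length) () := by
      rw [← le_antisymm h1 h2]
      exact List.map_const'
    rw [h4] at h3
    exact h3

end Poly

end Pool.Agent.H660R2.NX
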