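import Pool.Agent.H660R2.NX.Diag

/-!
# The lower bound
-/

namespace Pool.Agent.H660R2.NX

open Pool.Agent.NPC Turing
open TDec (dec dec_toT toT_dec poly_dec)

theorem valB_replicate (k : ℕ) : valB (List.replicate k false) = 0 := by
  induction k with
  | zero => rfl
  | succ k ih => simp [List.replicate_succ, ih]

theorem length_filter_le (T : ℕ) : ∀ N : ℕ,
    ((List.range N).filter (fun t => decide (1 ≤ t ∧ t ≤ T))).length = min T (N - 1)
  | 0 => by simp
  | N + 1 => by
    rw [List.range_succ, List.filter_append, List.length_append, length_filter_le T N]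
    by_cases h : 1 ≤ N ∧ N ≤ T
    · simp [h]; omega
    · simp only [List.filter_cons, h, decide_false, List.filter_nil]
      simp
      omega

theorem filter_range_le {j N : ℕ} (h : j < N) :
    (List.range N).filter (fun i => decide (i ≤ j)) = List.range (j + 1) := by
  obtain ⟨m, rfl⟩ := Nat.exists_eq_add_of_lt h
  rw [show j + m + 1 = (j + 1) + m by omega, List.range_add, List.filter_append]
  have h1 : (List.range (j + 1)).filter (fun i => decide (i ≤ j)) = List.range (j + 1) := by
    rw [List.filter_eq_self]
    intro i hi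
    rw [List.mem_range] at hi
    simp; omega
  have h2 : (List.map (fun x => j + 1 + x) (List.range m)).filter (fun i => decide (i ≤ j)) =
      [] := by
    rw [List.filter_eq_nil_iff]
    intro i hi
    rw [List.mem_map] at hi
    obtain ⟨k, _, rfl⟩ := hi
    simp; omega
  rw [h1, h2, List.append_nil]

theorem sz_units (m : ℕ) : sz (List.replicate m ()) = 2 * m + 1 := by
  induction m with
  | zero => rfl
  | succ m ih =>
    rw [List.replicate_succ]
    simp [ih]
    omega

theorem length_xj (cc : List Bool) {l j : ℕ} (hj : j.bits.length ≤ l) :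
    (xj cc l j).length = 2 * cc.length + 1 + l := by
  unfold xj
  rw [length_pairBits, List.length_append, List.length_replicate]
  omega

/-- The bound for the length of instances. -/
noncomputable def YY (c : ℕ) : Polynomial ℕ :=
  17 * Polynomial.X + 32 * (Polynomial.X ^ c + Polynomial.C c) +
    2 * (Polynomial.X * (Polynomial.X ^ c + Polynomial.C c + Polynomial.X + 3)) + 40

/-- The bound for the length of the parameters. -/
noncomputable def SB (c : ℕ) (s : Polynomial ℕ) : Polynomial ℕ :=
  (YY c + 1) * (4 * s.comp (YY c) + 2) + 4 * (Polynomial.X ^ c + Polynomial.C c) + 3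

theorem length_inst {c : ℕ} {e : Code} {x α : List Bool} {t : ℕ} (he : sz e ≤ x.length)
    (hα : α.length ≤ x.length ^ c + c) (ht : t.bits.length ≤ x.length ^ c + c + 1) :
    (ins e (bits (x, α, t)) (mm c x.length)).length ≤ (YY c).eval x.length := by
  unfold ins
  rw [bits_length]
  have h1 := sz_listBool_le x
  have h2 := sz_listBool_le α
  have h3 := sz_nat_le t
  rw [← Nat.size_eq_bits_len] at h3
  have h4 := sz_listBool_le (bits (x, α, t))
  rw [bits_length] at h4
  simp only [sz_pair] at h4 ⊢
  rw [sz_units]
  simp only [YY, Polynomial.eval_add, Polynomial.eval_mul, Polynomial.eval_ofNat,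
    Polynomial.eval_X, Polynomial.eval_pow, Polynomial.eval_C]
  unfold mm
  omega

/-- The true parameter. -/
def rhoStar (γ a : ℕ → List Bool) (n Y : ℕ) : List Bool :=
  bits ((List.range (Y + 1)).map γ, a n)

theorem length_rhoStar {c : ℕ} {s : Polynomial ℕ} {γ a : ℕ → List Bool}
    (hγ : ∀ n, (γ n).length ≤ s.eval n)
    (ha : ∀ n, (a n).length ≤ n ^ c + c) (n : ℕ) :
    (rhoStar γ a n ((YY c).eval n)).length ≤ (SB c s).eval n := by
  unfold rhoStar
  rw [bits_length]
  have h1 := sz_le_length_mul ((List.range ((YY c).eval n + 1)).map γ)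
    (4 * s.eval ((YY c).eval n) + 1) (by
      intro v hv
      rw [List.mem_map] at hv
      obtain ⟨i, hi, rfl⟩ := hv
      rw [List.mem_range] at hi
      have h2 := sz_listBool_le (γ i)
      have h3 := hγ i
      have h4 := eval_mono s (show i ≤ (YY c).eval n by omega)
      omega)
  rw [List.length_map, List.length_range] at h1
  have h1' : sz (List.map γ (List.range ((YY c).eval n + 1))) ≤
      ((YY c).eval n + 1) * (4 * s.eval ((YY c).eval n) + 2) + 1 := h1
  have h2 := sz_listBool_le (a n)
  have h3 := ha n
  simp only [sz_pair]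
  simp only [SB, Polynomial.eval_add, Polynomial.eval_mul, Polynomial.eval_ofNat,
    Polynomial.eval_X, Polynomial.eval_pow, Polynomial.eval_C, Polynomial.eval_one,
    Polynomial.eval_comp]
  omega

/-- If the universal set is in `P^NP/poly` then the diagonal languages have the required
properties. -/
theorem main (hK : InPNPPoly KSet) (c : ℕ) :
    ∃ L : Set (List Bool), InEXP L ∧ InNEXP L ∧ ∀ S : Set ℕ, S.Infinite → ¬ InPNPFew c S L := by
  classical
  obtain ⟨F, P0, s, γ, hF, hγ, hFK⟩ := exists_solver hK
  let P : Polynomial ℕ := P0.comp (YY c) + SB c s + (Polynomial.X ^ c + Polynomial.C c) + 3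
  refine ⟨DSet F c (SB c s) P, inEXP_DSet hF P, inNEXP_DSet hF P, ?_⟩
  rintro S hS ⟨f, A, r, a, hf, hA, ha, hfx⟩
  obtain ⟨V₁, V₂, R, hV₁, hV₂, hV⟩ := exists_verifiers (r := r) hf hA ha
  obtain ⟨e₁, p₁, he₁⟩ := U_complete hV₁
  obtain ⟨e₂, p₂, he₂⟩ := U_complete hV₂
  -- large lengths
  obtain ⟨n₁, hn₁⟩ := eval_two_pow (Polynomial.X + p₁)
  obtain ⟨n₂, hn₂⟩ := eval_two_pow (Polynomial.X + p₂)
  obtain ⟨n₃, hn₃⟩ := eval_le_two_pow R
  obtain ⟨n₄, hn₄⟩ := eval_le_two_pow
    (4 * Polynomial.X + 8 * (Polynomial.X ^ c + Polynomial.C c) + 9)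
  obtain ⟨n₅, hn₅⟩ := eval_le_two_pow
    ((SB c s + 1) * Polynomial.C (2 ^ (2 * (bits (e₁, e₂)).length + 1)))
  obtain ⟨n, hnS, hn⟩ := hS.exists_gt (n₁ + n₂ + n₃ + n₄ + n₅ + (2 * (bits (e₁, e₂)).length + 1))
  let pad : List Unit := List.replicate (2 ^ P.eval n) ()
  have hpadlen : pad.length = 2 ^ P.eval n := List.length_replicate
  have hPn : P.eval n = P0.eval ((YY c).eval n) + (SB c s).eval n + (n ^ c + c) + 3 := by
    simp [P]
  have hsze : sz e₁ ≤ n ∧ sz e₂ ≤ n := by
    have h1 : (bits (e₁, e₂)).length = sz e₁ + sz e₂ + 1 := by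
      rw [bits_length, sz_pair]
    constructor <;> omega
  -- the size estimate for certificates
  have hcert : ∀ (x w : List Bool) (t : ℕ), x.length = n → t ≤ 2 ^ (n ^ c + c) →
      w.length ≤ (t + 1) * R.eval x.length →
      2 * w.length + 1 + p₁.eval (pairBits (bits (x, a x.length, t)) w).length ≤
        2 ^ mm c n ∧
      2 * w.length + 1 + p₂.eval (pairBits (bits (x, a x.length, t)) w).length ≤
        2 ^ mm c n := by
    intro x w t hx ht hw
    have hR := hn₃ n (by omega)
    have hZ := hn₄ n (by omega)
    simp only [Polynomial.eval_add, Polynomial.eval_mul, Polynomial.eval_ofNat,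
      Polynomial.eval_X, Polynomial.eval_pow, Polynomial.eval_C] at hZ
    rw [hx] at hw
    have hz : (bits (x, a x.length, t)).length ≤ 4 * n + 8 * (n ^ c + c) + 9 := by
      rw [bits_length]
      simp only [sz_pair]
      have h1 := sz_listBool_le x
      have h2 := sz_listBool_le (a x.length)
      have h3 := sz_nat_le t
      have h4 := ha x.length
      rw [hx] at h4 h2 h1
      have h5 : t.size ≤ n ^ c + c + 1 := by
        rw [Nat.size_le]
        refine lt_of_le_of_lt ht (Nat.pow_lt_pow_right (by norm_num) (by omega))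
      rw [hx]
      omega
    generalize hk : n ^ c + c = k at *
    have hw2 : w.length ≤ 2 ^ (k + n + 1) := by
      have h1 : t + 1 ≤ 2 ^ (k + 1) := by
        have : 1 ≤ 2 ^ k := Nat.one_le_two_pow
        rw [pow_succ]; omega
      calc w.length ≤ (t + 1) * R.eval n := hw
        _ ≤ 2 ^ (k + 1) * 2 ^ n := Nat.mul_le_mul h1 hR
        _ = 2 ^ (k + n + 1) := by rw [← pow_add]; congr 1; omega
    have hpow : 2 ^ (k + n + 3) = 4 * 2 ^ (k + n + 1) := by
      rw [show k + n + 3 = (k + n + 1) + 2 by omega, pow_add]; ring
    have hpow1 : 1 ≤ 2 ^ (k + n + 1) := Nat.one_le_two_pow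
    have hpow2 : 2 * 2 ^ n ≤ 2 ^ (k + n + 1) := by
      rw [show 2 * 2 ^ n = 2 ^ (n + 1) by ring]
      exact Nat.pow_le_pow_right (by norm_num) (by omega)
    have hlen : (pairBits (bits (x, a x.length, t)) w).length ≤ 2 ^ (k + n + 3) := by
      rw [length_pairBits]
      omega
    have hs : (1 : ℕ) ≤ k + n + 3 := by omega
    have hmm : mm c n = n * (k + n + 3) := by unfold mm; rw [← hk]
    have g1 := hn₁ n (by omega) _ hs
    have g2 := hn₂ n (by omega) _ hs
    rw [Polynomial.eval_add, Polynomial.eval_X] at g1 g2
    rw [hmm]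
    have m1 := eval_mono p₁ hlen
    have m2 := eval_mono p₂ hlen
    constructor
    · refine le_trans ?_ g1
      omega
    · refine le_trans ?_ g2
      omega
  -- the prediction with the true parameter is correct
  have hpred : ∀ x : List Bool, x.length = n →
      (pred F c (e₁, e₂) x (rhoStar γ a n ((YY c).eval n)) pad = true ↔
        x ∈ DSet F c (SB c s) P) := by
    intro x hx
    obtain ⟨hdec, hfew⟩ := hfx x (by rw [hx]; exact hnS)
    rw [← yesQueriesF_eq, Set.encard_le_coe_iff_finite_ncard_le] at hfew
    obtain ⟨hfin, hcard⟩ := hfew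
    obtain ⟨v1, v2, v3⟩ := hV x hfin
    generalize hT : (YesQueriesF f A (pairBits x (a x.length)) (r.eval x.length)).ncard = T
      at hcard v1 v2 v3
    obtain ⟨v4, v5⟩ := v3 _ hdec T rfl
    have hTn : T ≤ 2 ^ (n ^ c + c) := by rw [← hx]; exact hcard
    have hask : ∀ e : Code, sz e ≤ n → ∀ t : ℕ, t.bits.length ≤ n ^ c + c + 1 →
        (ask F c ((List.range ((YY c).eval n + 1)).map γ) e x (a x.length) t pad = true ↔
          ins e (bits (x, a x.length, t)) (mm c x.length) ∈ KSet) := by
      intro e he t ht
      have hl := length_inst (c := c) (e := e) (x := x) (α := a x.length) (t := t)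
        (by rw [hx]; exact he) (ha _) (by rw [hx]; exact ht)
      unfold ask
      have hg : ((List.range ((YY c).eval n + 1)).map γ).getD
          (ins e (bits (x, a x.length, t)) (mm c x.length)).length [] =
          γ (ins e (bits (x, a x.length, t)) (mm c x.length)).length := by
        rw [hx] at hl ⊢
        rw [List.getD_eq_getElem _ _ (by rw [List.length_map, List.length_range]; omega),
          List.getElem_map, List.getElem_range]
      rw [hg]
      refine hFK _ _ ?_
      rw [hpadlen]
      refine Nat.pow_le_pow_right (by norm_num) ?_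
      have := eval_mono P0 hl
      rw [hx] at this ⊢
      omega
    have hone : ∀ t : ℕ, t.bits.length ≤ n ^ c + c + 1 →
        (ins e₁ (bits (x, a x.length, t)) (mm c x.length) ∈ KSet ↔ t ≤ T) := by
      intro t ht
      constructor
      · intro h
        obtain ⟨w, hw⟩ := ins_sound (show IsCode e₁ V₁ p₁ from he₁) h
        exact v1 t w hw
      · intro h
        obtain ⟨w, hw, hw'⟩ := v2 t h
        refine ins_complete (show IsCode e₁ V₁ p₁ from he₁) hw' ?_
        have := (hcert x w t hx (h.trans hTn) hw).1
        rw [hx] at this ⊢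
        exact this
    have hTbits : T.bits.length ≤ n ^ c + c + 1 := by
      rw [Nat.size_eq_bits_len, Nat.size_le]
      exact lt_of_le_of_lt hTn (Nat.pow_lt_pow_right (by norm_num) (by omega))
    have htc : tcount F c ((List.range ((YY c).eval n + 1)).map γ) e₁ x (a x.length) pad = T := by
      unfold tcount
      have h1 : (List.range pad.length).filter (fun t => decide (1 ≤ t) &&
          (decide (t.bits.length ≤ x.length ^ c + c + 1) &&
            ask F c ((List.range ((YY c).eval n + 1)).map γ) e₁ x (a x.length) t pad)) =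
          (List.range pad.length).filter (fun t => decide (1 ≤ t ∧ t ≤ T)) := by
        apply List.filter_congr
        intro t _
        rw [Bool.eq_iff_iff]
        have hxc : x.length ^ c + c + 1 = n ^ c + c + 1 := by rw [hx]
        simp only [Bool.and_eq_true, decide_eq_true_eq, hxc]
        constructor
        · rintro ⟨h2, h3, h4⟩
          exact ⟨h2, (hone t h3).1 ((hask e₁ hsze.1 t h3).1 h4)⟩
        · rintro ⟨h2, h3⟩
          have h4 : t.bits.length ≤ n ^ c + c + 1 := by
            rw [Nat.size_eq_bits_len] at hTbits ⊢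
            exact (Nat.size_le_size h3).trans hTbits
          exact ⟨h2, h4, (hask e₁ hsze.1 t h4).2 ((hone t h4).2 h3)⟩
      rw [h1, length_filter_le, hpadlen]
      have h2 : 2 ^ (n ^ c + c) < 2 ^ P.eval n := Nat.pow_lt_pow_right (by norm_num) (by omega)
      omega
    unfold pred rhoStar
    rw [unbits_bits, Option.elim_some]
    simp only
    have hax : a n = a x.length := by rw [hx]
    rw [hax, htc, hask e₂ hsze.2 T hTbits]
    constructor
    · intro h
      obtain ⟨w, hw⟩ := ins_sound (show IsCode e₂ V₂ p₂ from he₂) h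
      exact v4 w hw
    · intro h
      obtain ⟨w, hw, hw'⟩ := v5 h
      refine ins_complete (show IsCode e₂ V₂ p₂ from he₂) hw' ?_
      have := (hcert x w T hx hTn hw).2
      rw [hx] at this ⊢
      exact this
  -- the test inputs
  let cc : List Bool := bits (e₁, e₂)
  let l : ℕ := n - (2 * cc.length + 1)
  have hl : 2 * cc.length + 1 + l = n := by
    have : 2 * cc.length + 1 ≤ n := by
      change 2 * (bits (e₁, e₂)).length + 1 ≤ n
      omega
    omega
  have hSl : (SB c s).eval n + 1 ≤ 2 ^ l := by
    have h1 := hn₅ n (by omega)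
    simp only [Polynomial.eval_add, Polynomial.eval_mul, Polynomial.eval_one,
      Polynomial.eval_C] at h1
    have h2 : 2 ^ n = 2 ^ l * 2 ^ (2 * cc.length + 1) := by
      rw [← pow_add]
      congr 1
      omega
    rw [h2] at h1
    exact Nat.le_of_mul_le_mul_right h1 (by positivity)
  have hbits : ∀ j < (SB c s).eval n + 1, j.bits.length ≤ l := by
    intro j hj
    rw [Nat.size_eq_bits_len, Nat.size_le]
    omega
  have hlenx : ∀ j < (SB c s).eval n + 1, (xj cc l j).length = n := by
    intro j hj
    rw [length_xj cc (hbits j hj), hl]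
  have hS : allB ((SB c s).eval n) pad = allStr ((SB c s).eval n) := by
    apply allB_eq
    rw [hpadlen]
    exact Nat.pow_le_pow_right (by norm_num) (by omega)
  have hD : ∀ j < (SB c s).eval n + 1, (xj cc l j ∈ DSet F c (SB c s) P ↔
      (greedy (fun j ρ => pred F c (e₁, e₂) (xj cc l j) ρ pad) (allStr ((SB c s).eval n))
        (j + 1)).2 = true) := by
    intro j hj
    unfold DSet
    rw [Set.mem_ofPred_eq, hlenx j hj]
    have hu : unpair (xj cc l j) =
        (cc, j.bits ++ List.replicate (l - j.bits.length) false) := by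
      unfold xj
      rw [unpair_pairBits]
    have hul : (j.bits ++ List.replicate (l - j.bits.length) false).length = l := by
      have := hbits j hj
      rw [List.length_append, List.length_replicate]
      omega
    have huv : valB (j.bits ++ List.replicate (l - j.bits.length) false) = j := by
      rw [valB_append, valB_bits, valB_replicate]
      omega
    have hjp : j < pad.length := by
      rw [hpadlen]
      have h1 : P.eval n < 2 ^ P.eval n := Nat.lt_two_pow_self
      omega
    unfold GG
    rw [hu]
    simp only [hul, huv]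
    rw [show unbits (Code × Code) cc = some (e₁, e₂) from unbits_bits _, Option.elim_some,
      hlenx j hj]
    change (((List.range pad.length).filter (fun i => decide (i ≤ j))).foldl
      (fun s i => gstep (fun ρ => pred F c (e₁, e₂) (xj cc l i) ρ pad) s)
      (allB ((SB c s).eval n) pad, false)).2 = true ↔ _
    rw [filter_range_le hjp, hS]
    rfl
  refine greedy_contra (fun j ρ => pred F c (e₁, e₂) (xj cc l j) ρ pad)
    (allStr ((SB c s).eval n)) (N := (SB c s).eval n + 1) ?_
    (ρ := rhoStar γ a n ((YY c).eval n)) ?_ ?_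
  · have := length_allStr ((SB c s).eval n)
    omega
  · rw [mem_allStr]
    exact length_rhoStar hγ ha n
  · intro j hj
    rw [Bool.eq_iff_iff]
    exact (hpred _ (hlenx j hj)).trans (hD j hj)

end Pool.Agent.H660R2.NX
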