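import Pool.Agent.H660R2.NX.Verif2

/-!
# The minority diagonalisation, and some growth estimates
-/

namespace Pool.Agent.H660R2.NX

open Pool.Agent.NPC Turing

/-- One step: the new bit is `true` if at most half of the surviving predictors predict `true`, and
`false` otherwise; the predictors that agree with the new bit survive. -/
def gstep (pr : List Bool → Bool) (s : List (List Bool) × Bool) : List (List Bool) × Bool :=
  if 2 * (s.1.filter (fun ρ => pr ρ)).length ≤ s.1.length then (s.1.filter (fun ρ => pr ρ), true)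
  else (s.1.filter (fun ρ => !(pr ρ)), false)

/-- The result of `k` steps. -/
def greedy (pr : ℕ → List Bool → Bool) (S : List (List Bool)) (k : ℕ) : List (List Bool) × Bool :=
  (List.range k).foldl (fun s j => gstep (pr j) s) (S, false)

theorem greedy_succ (pr : ℕ → List Bool → Bool) (S : List (List Bool)) (k : ℕ) :
    greedy pr S (k + 1) = gstep (pr k) (greedy pr S k) := by
  unfold greedy
  rw [List.range_succ, List.foldl_append]
  rfl

theorem gstep_length (pr : List Bool → Bool) (s : List (List Bool) × Bool) :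
    2 * (gstep pr s).1.length ≤ s.1.length := by
  unfold gstep
  split_ifs with h
  · exact h
  · have h1 : (s.1.filter (fun ρ => pr ρ)).length + (s.1.filter (fun ρ => !(pr ρ))).length =
        s.1.length := by
      have := List.length_eq_length_filter_add (l := s.1) (fun ρ => pr ρ)
      omega
    simp only
    omega

theorem greedy_length (pr : ℕ → List Bool → Bool) (S : List (List Bool)) :
    ∀ k, 2 ^ k * (greedy pr S k).1.length ≤ S.length
  | 0 => by simp [greedy]
  | k + 1 => by
    have h1 := greedy_length pr S k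
    have h2 := gstep_length (pr k) (greedy pr S k)
    rw [greedy_succ, pow_succ]
    calc 2 ^ k * 2 * (gstep (pr k) (greedy pr S k)).1.length
        = 2 ^ k * (2 * (gstep (pr k) (greedy pr S k)).1.length) := by ring
      _ ≤ 2 ^ k * (greedy pr S k).1.length := Nat.mul_le_mul_left _ h2
      _ ≤ S.length := h1

theorem greedy_mem (pr : ℕ → List Bool → Bool) (S : List (List Bool)) {ρ : List Bool}
    (hρ : ρ ∈ S) : ∀ k, (∀ j < k, pr j ρ = (greedy pr S (j + 1)).2) → ρ ∈ (greedy pr S k).1
  | 0, _ => by simpa [greedy] using hρ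
  | k + 1, h => by
    have h1 := greedy_mem pr S hρ k (fun j hj => h j (by omega))
    have h2 := h k (by omega)
    rw [greedy_succ] at h2 ⊢
    unfold gstep at h2 ⊢
    split_ifs at h2 ⊢ with h3
    · exact List.mem_filter.2 ⟨h1, h2⟩
    · exact List.mem_filter.2 ⟨h1, by simp [h2]⟩

/-- No predictor predicts all the bits correctly. -/
theorem greedy_contra (pr : ℕ → List Bool → Bool) (S : List (List Bool)) {N : ℕ}
    (hN : S.length < 2 ^ N) {ρ : List Bool} (hρ : ρ ∈ S)
    (h : ∀ j < N, pr j ρ = (greedy pr S (j + 1)).2) : False := by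
  have h1 := greedy_mem pr S hρ N h
  have h2 := greedy_length pr S N
  have h3 : 1 ≤ (greedy pr S N).1.length := List.length_pos_of_mem h1
  nlinarith

theorem sz_filter_le (p : List Bool → Bool) (l : List (List Bool)) : sz (l.filter p) ≤ sz l := by
  induction l with
  | nil => simp
  | cons a l ih =>
    rw [List.filter_cons]
    split_ifs
    · simp; omega
    · simp; omega

theorem sz_gstep (pr : List Bool → Bool) (s : List (List Bool) × Bool) :
    sz (gstep pr s) ≤ sz s + 3 := by
  obtain ⟨l, b⟩ := s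
  unfold gstep
  split_ifs
  · have := sz_filter_le (fun ρ => pr ρ) l
    have h2 := sz_bool_le true
    have h3 := sz_pos b
    simp only [sz_pair]
    omega
  · have := sz_filter_le (fun ρ => !(pr ρ)) l
    have h2 := sz_bool_le false
    have h3 := sz_pos b
    simp only [sz_pair]
    omega

/-! ### Growth estimates -/

theorem eval_le_pow (Q : Polynomial ℕ) {x : ℕ} (hx : 1 ≤ x) :
    Q.eval x ≤ Q.eval 1 * x ^ Q.natDegree := by
  rw [Polynomial.eval_eq_sum_range, Polynomial.eval_eq_sum_range, Finset.sum_mul]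
  refine Finset.sum_le_sum fun i hi => ?_
  rw [one_pow, mul_one]
  exact Nat.mul_le_mul_left _ (Nat.pow_le_pow_right hx (by
    rw [Finset.mem_range] at hi; omega))

theorem eval_two_pow (Q : Polynomial ℕ) :
    ∃ N : ℕ, ∀ n, N ≤ n → ∀ s, 1 ≤ s → Q.eval (2 ^ s) ≤ 2 ^ (n * s) := by
  refine ⟨Q.eval 1 + Q.natDegree, fun n hn s hs => ?_⟩
  refine (eval_le_pow Q Nat.one_le_two_pow).trans ?_
  have h1 : Q.eval 1 ≤ 2 ^ Q.eval 1 := Nat.lt_two_pow_self.le
  calc Q.eval 1 * (2 ^ s) ^ Q.natDegree ≤ 2 ^ Q.eval 1 * (2 ^ s) ^ Q.natDegree :=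
        Nat.mul_le_mul_right _ h1
    _ = 2 ^ (Q.eval 1 + s * Q.natDegree) := by rw [← pow_mul, ← pow_add]
    _ ≤ 2 ^ (n * s) := by
        apply Nat.pow_le_pow_right (by norm_num)
        nlinarith [Nat.zero_le (Q.eval 1), Nat.zero_le Q.natDegree,
          Nat.mul_le_mul_left (Q.eval 1) hs, Nat.mul_le_mul_right s hn]

theorem eval_le_two_pow (R : Polynomial ℕ) : ∃ N : ℕ, ∀ n, N ≤ n → R.eval n ≤ 2 ^ n := by
  have h := tendsto_pow_const_div_const_pow_of_one_lt (R.natDegree) (r := (2 : ℝ)) (by norm_num)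
  have h1 : ∀ᶠ n : ℕ in Filter.atTop, (n : ℝ) ^ R.natDegree / 2 ^ n < 1 / (R.eval 1 + 1) :=
    h.eventually_lt_const (by positivity)
  obtain ⟨N, hN⟩ := Filter.eventually_atTop.1 h1
  refine ⟨max N 1, fun n hn => ?_⟩
  have h2 := hN n (by omega)
  have h3 : (1 : ℕ) ≤ n := by omega
  have h4 := eval_le_pow R h3
  rw [div_lt_div_iff₀ (by positivity) (by positivity)] at h2
  have h5 : (R.eval 1 * n ^ R.natDegree : ℕ) ≤ 2 ^ n := by
    have h6 : ((R.eval 1 * n ^ R.natDegree : ℕ) : ℝ) ≤ ((2 ^ n : ℕ) : ℝ) := by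
      push_cast
      have h7 : (0 : ℝ) ≤ (n : ℝ) ^ R.natDegree := by positivity
      nlinarith
    exact_mod_cast h6
  omega

end Pool.Agent.H660R2.NX
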