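import Pool.Agent.NPC.Dec
import Pool.Agent.H671R2.PolyAuto
import Pool.Agent.H642R2.TMSim

/-!
# A universal polynomial-time simulation

`U e x t` runs the program with code `e` on input `x` for `t` small steps.  It is polynomial-time
computable in `e`, `x` and the unary number `t`, and every polynomial-time function has a code.
-/

namespace Pool.Agent.H660R2.NX

open Pool.Agent.NPC Turing
open TDec (dec dec_toT toT_dec poly_dec)

/-- Codes of programs as trees. -/
def cenc : Cmd ℕ → T
  | .skip => toT ((0 : ℕ), (0 : ℕ), false, ([] : List T))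
  | .push k b => toT ((1 : ℕ), k, b, ([] : List T))
  | .pop k => toT ((2 : ℕ), k, false, ([] : List T))
  | .seq c d => toT ((3 : ℕ), (0 : ℕ), false, [cenc c, cenc d])
  | .cases k c₀ cf ct => toT ((4 : ℕ), k, false, [cenc c₀, cenc cf, cenc ct])
  | .loop k c => toT ((5 : ℕ), k, false, [cenc c])

/-- Changing a register. -/
def setR (s : List (List Bool)) (k : ℕ) (v : List Bool) : List (List Bool) :=
  s.zipIdx.map (fun p => if p.2 = k then v else p.1)

/-- Executing one instruction: `i` is the decoded instruction, `c` its code, `r` the rest of the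
program and `s` the registers. -/
def exec (i : ℕ × ℕ × Bool × List T) (c : T) (r : List T) (s : List (List Bool)) :
    List T × List (List Bool) :=
  if i.1 = 1 then (r, setR s i.2.1 (i.2.2.1 :: s.getD i.2.1 []))
  else if i.1 = 2 then (r, setR s i.2.1 (s.getD i.2.1 []).tail)
  else if i.1 = 3 then (i.2.2.2.getD 0 T.nil :: i.2.2.2.getD 1 T.nil :: r, s)
  else if i.1 = 4 then
    (if s.getD i.2.1 [] = [] then i.2.2.2.getD 0 T.nil :: r
      else if (s.getD i.2.1 []).head? = some false then i.2.2.2.getD 1 T.nil :: r
      else i.2.2.2.getD 2 T.nil :: r, s)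
  else if i.1 = 5 then
    (if s.getD i.2.1 [] = [] then r else i.2.2.2.getD 0 T.nil :: c :: r, s)
  else (r, s)

/-- One step of the interpreter. -/
def ustep (st : List T × List (List Bool)) : List T × List (List Bool) :=
  (st.1.head?).elim st (fun c => (dec c : Option (ℕ × ℕ × Bool × List T)).elim
    (st.1.tail, st.2) (fun i => exec i c st.1.tail st.2))

/-- The universal function: the output of the program with code `e` on input `x`, if the
interpreter finishes within `t` steps. -/
def U (e : T × List Unit) (x : List Bool) (t : ℕ) : Option (List Bool) :=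
  if (ustep^[t] ([e.1], x :: e.2.map (fun _ => []))).1 = [] then
    some ((ustep^[t] ([e.1], x :: e.2.map (fun _ => []))).2.getD 0 [])
  else none

attribute [local fun_prop] Poly.optBind Poly.isSome

theorem poly_setR : Poly (fun p : List (List Bool) × ℕ × List Bool => setR p.1 p.2.1 p.2.2) := by
  unfold setR
  fun_prop

theorem poly_exec : Poly (fun p : (ℕ × ℕ × Bool × List T) × T × List T × List (List Bool) =>
    exec p.1 p.2.1 p.2.2.1 p.2.2.2) := by
  have h1 : Poly (fun p : (ℕ × ℕ × Bool × List T) × T × List T × List (List Bool) =>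
      setR p.2.2.2 p.1.2.1 (p.1.2.2.1 :: p.2.2.2.getD p.1.2.1 [])) :=
    poly_setR.comp (f := fun p : (ℕ × ℕ × Bool × List T) × T × List T × List (List Bool) =>
      (p.2.2.2, p.1.2.1, p.1.2.2.1 :: p.2.2.2.getD p.1.2.1 [])) (by fun_prop)
  have h2 : Poly (fun p : (ℕ × ℕ × Bool × List T) × T × List T × List (List Bool) =>
      setR p.2.2.2 p.1.2.1 (p.2.2.2.getD p.1.2.1 []).tail) :=
    poly_setR.comp (f := fun p : (ℕ × ℕ × Bool × List T) × T × List T × List (List Bool) =>
      (p.2.2.2, p.1.2.1, (p.2.2.2.getD p.1.2.1 []).tail)) (by fun_prop)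
  unfold exec
  fun_prop

theorem poly_ustep : Poly ustep := by
  unfold ustep
  have h1 : Poly (fun t : T => (dec t : Option (ℕ × ℕ × Bool × List T))) := poly_dec
  refine Poly.optElim (o := fun st : List T × List (List Bool) => st.1.head?)
    (g := fun st => st) (h := fun st c => (dec c : Option (ℕ × ℕ × Bool × List T)).elim
    (st.1.tail, st.2) (fun i => exec i c st.1.tail st.2)) (by fun_prop) (by fun_prop) ?_
  refine Poly.optElim (o := fun p : (List T × List (List Bool)) × T =>
    (dec p.2 : Option (ℕ × ℕ × Bool × List T))) (g := fun p => (p.1.1.tail, p.1.2))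
    (h := fun p i => exec i p.2 p.1.1.tail p.1.2) (h1.comp (by fun_prop)) (by fun_prop) ?_
  exact poly_exec.comp (f := fun p : ((List T × List (List Bool)) × T) ×
    (ℕ × ℕ × Bool × List T) => (p.2, p.1.2, p.1.1.1.tail, p.1.1.2)) (by fun_prop)

/-! ### Registers -/

theorem length_setR (s : List (List Bool)) (k : ℕ) (v : List Bool) :
    (setR s k v).length = s.length := by
  simp [setR]

theorem getD_setR (s : List (List Bool)) (k : ℕ) (v : List Bool) (hk : k < s.length) (i : ℕ) :
    (setR s k v).getD i [] = if i = k then v else s.getD i [] := by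
  unfold setR
  rw [List.getD_eq_getElem?_getD, List.getElem?_map, List.getElem?_zipIdx]
  by_cases hi : i < s.length
  · rw [List.getElem?_eq_getElem hi, List.getD_eq_getElem _ _ hi]
    simp only [Option.map_some, Nat.zero_add, Option.getD_some]
  · rw [List.getElem?_eq_none (by omega)]
    have : i ≠ k := by omega
    simp only [Option.map_none, Option.getD_none, this, if_false]
    rw [List.getD_eq_default _ _ (by omega)]

/-- The registers `s` represent the stack family `S`. -/
def Rep (s : List (List Bool)) (S : ℕ → List Bool) : Prop := ∀ i, s.getD i [] = S i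

theorem Rep.set {s : List (List Bool)} {S : ℕ → List Bool} (h : Rep s S) {k : ℕ}
    (hk : k < s.length) (v : List Bool) : Rep (setR s k v) (Function.update S k v) := by
  intro i
  rw [getD_setR _ _ _ hk]
  by_cases hi : i = k
  · subst hi; simp
  · rw [if_neg hi, Function.update_of_ne hi, h i]

theorem ustep_cons (c : T) (r : List T) (s : List (List Bool)) (i : ℕ × ℕ × Bool × List T)
    (hc : c = toT i) : ustep (c :: r, s) = exec i c r s := by
  subst hc
  simp [ustep, dec_toT]

theorem sim {c : Cmd ℕ} {S S' : ℕ → List Bool} {t : ℕ} (h : Run c S S' t) :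
    ∀ (r : List T) (s : List (List Bool)), c.bd ≤ s.length → Rep s S →
      ∃ (n : ℕ) (s' : List (List Bool)), n + 1 ≤ 2 * t ∧ s'.length = s.length ∧ Rep s' S' ∧
        ustep^[n] (cenc c :: r, s) = (r, s') := by
  induction h with
  | skip S =>
    intro r s _ hr
    refine ⟨1, s, by omega, rfl, hr, ?_⟩
    rw [Function.iterate_one, cenc, ustep_cons _ _ _ _ rfl]
    simp [exec]
  | push S k b =>
    intro r s hs hr
    have hk : k < s.length := by simpa [Cmd.bd] using hs
    refine ⟨1, setR s k (b :: s.getD k []), by omega, length_setR _ _ _, ?_, ?_⟩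
    · rw [hr k]; exact hr.set hk _
    · rw [Function.iterate_one, cenc, ustep_cons _ _ _ _ rfl]
      simp [exec]
  | pop S k =>
    intro r s hs hr
    have hk : k < s.length := by simpa [Cmd.bd] using hs
    refine ⟨1, setR s k (s.getD k []).tail, by omega, length_setR _ _ _, ?_, ?_⟩
    · rw [hr k]; exact hr.set hk _
    · rw [Function.iterate_one, cenc, ustep_cons _ _ _ _ rfl]
      simp [exec]
  | @seq c d S S' S'' t t' _ _ ih₁ ih₂ =>
    intro r s hs hr
    simp only [Cmd.bd, sup_le_iff] at hs
    obtain ⟨n₁, s₁, hn₁, hl₁, hr₁, he₁⟩ := ih₁ (cenc d :: r) s hs.1 hr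
    obtain ⟨n₂, s₂, hn₂, hl₂, hr₂, he₂⟩ := ih₂ r s₁ (by omega) hr₁
    refine ⟨n₂ + (n₁ + 1), s₂, by omega, by omega, hr₂, ?_⟩
    rw [Function.iterate_add_apply, Function.iterate_succ_apply, cenc, ustep_cons _ _ _ _ rfl]
    have : exec ((3 : ℕ), (0 : ℕ), false, [cenc c, cenc d])
        (toT ((3 : ℕ), (0 : ℕ), false, [cenc c, cenc d])) r s = (cenc c :: cenc d :: r, s) := by
      simp [exec]
    rw [this, he₁, he₂]
  | @casesNil k c₀ cf ct S S' t hk _ ih =>
    intro r s hs hr
    simp only [Cmd.bd, sup_le_iff] at hs
    obtain ⟨n₁, s₁, hn₁, hl₁, hr₁, he₁⟩ := ih r s hs.2.1 hr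
    refine ⟨n₁ + 1, s₁, by omega, by omega, hr₁, ?_⟩
    rw [Function.iterate_succ_apply, cenc, ustep_cons _ _ _ _ rfl]
    have : exec ((4 : ℕ), k, false, [cenc c₀, cenc cf, cenc ct])
        (toT ((4 : ℕ), k, false, [cenc c₀, cenc cf, cenc ct])) r s = (cenc c₀ :: r, s) := by
      unfold exec
      simp only [hr k, hk]
      simp
    rw [this, he₁]
  | @casesFalse k c₀ cf ct S S' t l hk _ ih =>
    intro r s hs hr
    simp only [Cmd.bd, sup_le_iff] at hs
    obtain ⟨n₁, s₁, hn₁, hl₁, hr₁, he₁⟩ := ih r s hs.2.2.1 hr
    refine ⟨n₁ + 1, s₁, by omega, by omega, hr₁, ?_⟩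
    rw [Function.iterate_succ_apply, cenc, ustep_cons _ _ _ _ rfl]
    have : exec ((4 : ℕ), k, false, [cenc c₀, cenc cf, cenc ct])
        (toT ((4 : ℕ), k, false, [cenc c₀, cenc cf, cenc ct])) r s = (cenc cf :: r, s) := by
      unfold exec
      simp only [hr k, hk]
      simp
    rw [this, he₁]
  | @casesTrue k c₀ cf ct S S' t l hk _ ih =>
    intro r s hs hr
    simp only [Cmd.bd, sup_le_iff] at hs
    obtain ⟨n₁, s₁, hn₁, hl₁, hr₁, he₁⟩ := ih r s hs.2.2.2 hr
    refine ⟨n₁ + 1, s₁, by omega, by omega, hr₁, ?_⟩
    rw [Function.iterate_succ_apply, cenc, ustep_cons _ _ _ _ rfl]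
    have : exec ((4 : ℕ), k, false, [cenc c₀, cenc cf, cenc ct])
        (toT ((4 : ℕ), k, false, [cenc c₀, cenc cf, cenc ct])) r s = (cenc ct :: r, s) := by
      unfold exec
      simp only [hr k, hk]
      simp
    rw [this, he₁]
  | @loopNil k c S hk =>
    intro r s hs hr
    refine ⟨1, s, by omega, rfl, hr, ?_⟩
    rw [Function.iterate_one, cenc, ustep_cons _ _ _ _ rfl]
    unfold exec
    simp only [hr k, hk]
    simp
  | @loopCons k c S S' S'' t t' hk _ _ ih₁ ih₂ =>
    intro r s hs hr
    have hs' := hs
    simp only [Cmd.bd, sup_le_iff] at hs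
    obtain ⟨n₁, s₁, hn₁, hl₁, hr₁, he₁⟩ := ih₁ (cenc (Cmd.loop k c) :: r) s hs.2 hr
    obtain ⟨n₂, s₂, hn₂, hl₂, hr₂, he₂⟩ := ih₂ r s₁ (by omega) hr₁
    refine ⟨n₂ + (n₁ + 1), s₂, by omega, by omega, hr₂, ?_⟩
    rw [Function.iterate_add_apply, Function.iterate_succ_apply]
    have : ustep (cenc (Cmd.loop k c) :: r, s) = (cenc c :: cenc (Cmd.loop k c) :: r, s) := by
      rw [ustep_cons (cenc (Cmd.loop k c)) r s ((5 : ℕ), k, false, [cenc c]) rfl]
      unfold exec
      simp only [hr k, hk]
      simp
    rw [this, he₁, he₂]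

theorem ustep_nil (s : List (List Bool)) : ustep ([], s) = ([], s) := rfl

theorem ustep_iterate_nil (s : List (List Bool)) : ∀ n, ustep^[n] ([], s) = ([], s)
  | 0 => rfl
  | n + 1 => by rw [Function.iterate_succ_apply, ustep_nil, ustep_iterate_nil s n]

theorem U_mono {e : T × List Unit} {x : List Bool} {t t' : ℕ} (h : t ≤ t') {y : List Bool}
    (hy : U e x t = some y) : U e x t' = some y := by
  unfold U at hy ⊢
  obtain ⟨k, rfl⟩ := Nat.exists_eq_add_of_le h
  generalize hst : ustep^[t] ([e.1], x :: e.2.map (fun _ => [])) = st at hy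
  obtain ⟨r, s⟩ := st
  have h2 : r = [] := by
    by_contra h3
    simp [h3] at hy
  subst h2
  rw [Nat.add_comm t k, Function.iterate_add_apply, hst, ustep_iterate_nil]
  exact hy

/-- **Completeness**: every polynomial-time function has a code. -/
theorem U_complete {f : List Bool → List Bool} (hf : PolyTime f) :
    ∃ (e : T × List Unit) (p : Polynomial ℕ), ∀ x t, p.eval x.length ≤ t →
      U e x t = some (f x) := by
  obtain ⟨c, p, h⟩ := Pool.Agent.H642R2.TMSim.toPC hf
  refine ⟨(cenc c, List.replicate c.bd ()), 2 * p, fun x t ht => ?_⟩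
  obtain ⟨t₀, ht₀, hr⟩ := h x
  have hrep : Rep (x :: (List.replicate c.bd ()).map (fun _ => ([] : List Bool)))
      (inp x : ℕ → List Bool) := by
    intro i
    cases i with
    | zero => simp [inp]
    | succ i =>
      rw [List.getD_cons_succ]
      simp only [inp, List.map_replicate]
      rw [Function.update_of_ne (by omega)]
      rw [List.getD_eq_getElem?_getD, List.getElem?_replicate]
      split_ifs <;> rfl
  obtain ⟨n, s', hn, _, hs', he⟩ := sim hr [] _ (by simp) hrep
  have h1 : U (cenc c, List.replicate c.bd ()) x n = some (f x) := by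
    unfold U
    simp only [he, if_true]
    have := hs' 0
    rw [this]
    simp [inp]
  refine U_mono ?_ h1
  have h2 : (2 * p).eval x.length = 2 * p.eval x.length := by simp
  have h3 : t₀ ≤ p.eval x.length := ht₀
  omega

/-! ### Polynomial time -/

/-- Size invariant of the interpreter. -/
structure Inv (S m L j : ℕ) (st : List T × List (List Bool)) : Prop where
  len : st.1.length ≤ 1 + j
  sub : ∀ c ∈ st.1, sz c ≤ S
  regs : st.2.length = m
  reg : ∀ v ∈ st.2, v.length ≤ L + j

theorem mem_setR {s : List (List Bool)} {k : ℕ} {v w : List Bool} (h : w ∈ setR s k v) :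
    w = v ∨ w ∈ s := by
  unfold setR at h
  rw [List.mem_map] at h
  obtain ⟨⟨a, i⟩, ha, rfl⟩ := h
  simp only
  split_ifs with h1
  · exact Or.inl rfl
  · exact Or.inr (List.fst_mem_of_mem_zipIdx ha)

theorem getD_mem_or {α : Type} (l : List α) (i : ℕ) (d : α) : l.getD i d = d ∨ l.getD i d ∈ l := by
  by_cases h : i < l.length
  · right
    rw [List.getD_eq_getElem _ _ h]
    exact List.getElem_mem h
  · left
    rw [List.getD_eq_default _ _ (by omega)]

theorem sub_le {c : T} {i : ℕ × ℕ × Bool × List T} (h : (dec c : Option _) = some i) (j : ℕ)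
    {S : ℕ} (hS : sz c ≤ S) (hS1 : 1 ≤ S) : sz (i.2.2.2.getD j T.nil) ≤ S := by
  have h1 := toT_dec _ _ h
  rcases getD_mem_or i.2.2.2 j T.nil with h2 | h2
  · rw [h2]
    have : sz T.nil = 1 := rfl
    omega
  · have h3 := sz_le_of_mem h2
    have h4 : sz i = sz c := by
      unfold sz
      rw [h1]
      rfl
    obtain ⟨a, b, d, l⟩ := i
    simp only [sz_pair] at h3 h4 ⊢
    omega

theorem Inv.step {S m L j : ℕ} (hS1 : 1 ≤ S) {st : List T × List (List Bool)}
    (h : Inv S m L j st) : Inv S m L (j + 1) (ustep st) := by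
  obtain ⟨r, s⟩ := st
  obtain ⟨h1, h2, h3, h4⟩ := h
  simp only at h1 h2 h3 h4
  cases r with
  | nil =>
    refine ⟨?_, ?_, ?_, ?_⟩
    · simp [ustep]
    · simp [ustep]
    · simpa [ustep] using h3
    · intro v hv
      have := h4 v hv
      omega
  | cons c r =>
    have hr : ∀ x ∈ r, sz x ≤ S := fun x hx => h2 x (by simp [hx])
    have hc : sz c ≤ S := h2 c (by simp)
    simp only [List.length_cons] at h1
    have hreg : ∀ v ∈ s, v.length ≤ L + (j + 1) := fun v hv => by have := h4 v hv; omega
    cases hd : (dec c : Option (ℕ × ℕ × Bool × List T)) with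
    | none =>
      have e : ustep (c :: r, s) = (r, s) := by simp [ustep, hd]
      rw [e]
      exact ⟨by simp only; omega, hr, h3, hreg⟩
    | some i =>
      have e : ustep (c :: r, s) = exec i c r s := by simp [ustep, hd]
      rw [e]
      have hget : ∀ k, (s.getD k []).length ≤ L + j := by
        intro k
        rcases getD_mem_or s k [] with h5 | h5
        · rw [h5]; simp
        · exact h4 _ h5
      have hsub : ∀ k, sz (i.2.2.2.getD k T.nil) ≤ S := fun k => sub_le hd k hc hS1
      unfold exec
      split_ifs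
      · refine ⟨by simp only; omega, hr, by rw [length_setR]; exact h3, ?_⟩
        intro v hv
        rcases mem_setR hv with rfl | hv
        · have := hget i.2.1
          simp only [List.length_cons]; omega
        · exact hreg v hv
      · refine ⟨by simp only; omega, hr, by rw [length_setR]; exact h3, ?_⟩
        intro v hv
        rcases mem_setR hv with rfl | hv
        · have := hget i.2.1
          simp only [List.length_tail]; omega
        · exact hreg v hv
      · refine ⟨by simp only [List.length_cons]; omega, ?_, h3, hreg⟩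
        intro x hx
        simp only [List.mem_cons] at hx
        rcases hx with rfl | rfl | hx
        · exact hsub 0
        · exact hsub 1
        · exact hr x hx
      all_goals
        refine ⟨by simp only [List.length_cons]; omega, ?_, h3, hreg⟩
        intro x hx
        first
          | (exact hr x hx)
          | (simp only [List.mem_cons] at hx
             rcases hx with rfl | rfl | hx
             · exact hsub 0
             · exact hc
             · exact hr x hx)
          | (simp only [List.mem_cons] at hx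
             rcases hx with rfl | hx
             · first | exact hsub 0 | exact hsub 1 | exact hsub 2
             · exact hr x hx)

theorem Inv.iterate {S m L : ℕ} (hS1 : 1 ≤ S) {st : List T × List (List Bool)}
    (h : Inv S m L 0 st) : ∀ k, Inv S m L k (ustep^[k] st)
  | 0 => h
  | k + 1 => by
    rw [Function.iterate_succ_apply']
    exact (Inv.iterate hS1 h k).step hS1

theorem Inv.sz_le {S m L j : ℕ} {st : List T × List (List Bool)} (h : Inv S m L j st) :
    sz st ≤ (1 + j) * (S + 1) + m * (4 * (L + j) + 2) + 3 := by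
  obtain ⟨r, s⟩ := st
  obtain ⟨h1, h2, h3, h4⟩ := h
  simp only at h1 h2 h3 h4
  have e1 := sz_le_length_mul r S h2
  have e2 := sz_le_length_mul s (4 * (L + j) + 1) (fun v hv => by
    have := h4 v hv
    have := sz_listBool_le v
    omega)
  simp only [sz_pair]
  have e3 : r.length * (S + 1) ≤ (1 + j) * (S + 1) := Nat.mul_le_mul_right _ h1
  rw [h3] at e2
  have e4 : m * (4 * (L + j) + 1 + 1) = m * (4 * (L + j) + 2) := by ring
  omega

theorem poly_U : Poly (fun a : (T × List Unit) × List Bool × List Unit =>
    U a.1 a.2.1 a.2.2.length) := by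
  have h0 : Poly (fun a : (T × List Unit) × List Bool × List Unit =>
      ustep^[a.2.2.length] (([a.1.1], a.2.1 :: a.1.2.map (fun _ => [])) :
        List T × List (List Bool))) := by
    refine Poly.iterLen (l := fun a : (T × List Unit) × List Bool × List Unit => a.2.2)
      (s := fun a => (([a.1.1], a.2.1 :: a.1.2.map (fun _ => [])) : List T × List (List Bool)))
      (F := fun _ => ustep) (by fun_prop) (by fun_prop) (poly_ustep.comp (by fun_prop))
      ((1 + Polynomial.X) * (Polynomial.X + 1) + (Polynomial.X + 1) *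
        (4 * (Polynomial.X + Polynomial.X) + 2) + 3) ?_
    intro a k hk
    have h1 : Inv (sz a) (a.1.2.length + 1) (sz a) 0
        (([a.1.1], a.2.1 :: a.1.2.map (fun _ => [])) : List T × List (List Bool)) := by
      obtain ⟨⟨e, m⟩, x, t⟩ := a
      refine ⟨by simp, ?_, by simp, ?_⟩
      · intro c hc
        simp only [List.mem_singleton] at hc
        subst hc
        simp only [sz_pair]
        omega
      · intro v hv
        simp only [List.mem_cons, List.mem_map] at hv
        rcases hv with rfl | ⟨_, _, rfl⟩
        · have := length_lt_sz v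
          simp only [sz_pair]
          omega
        · simp
    have h2 := (h1.iterate (sz_pos a) k).sz_le
    have h3 : k ≤ sz a := by
      obtain ⟨⟨e, m⟩, x, t⟩ := a
      have := length_lt_sz t
      simp only [sz_pair]
      simp only at hk
      omega
    have h4 : a.1.2.length ≤ sz a := by
      obtain ⟨⟨e, m⟩, x, t⟩ := a
      have := length_lt_sz m
      simp only [sz_pair]
      omega
    refine h2.trans ?_
    simp only [Polynomial.eval_add, Polynomial.eval_mul, Polynomial.eval_X, Polynomial.eval_one,
      Polynomial.eval_ofNat]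
    gcongr
  unfold U
  fun_prop

end Pool.Agent.H660R2.NX
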