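import Pool.Agent.H660R2.NX.Defs
import Pool.Agent.H660R2.NX.Univ
import Pool.Agent.H591R2.RawOut

/-!
# Running query algorithms, and the set of all short bit strings
-/

namespace Pool.Agent.H660R2.NX

open Pool.Agent.NPC Turing

/-! ### Conversions between raw and typed polynomial time -/

theorem poly_of_polyTime {f : List Bool → List Bool} (hf : PolyTime f) : Poly f := by
  have h1 : PC (fun x : List Bool => x) (fun x : List Bool => x) f :=
    H642R2.TMSim.polyTime_toPC hf
  have h2 : PC (bits : List Bool → List Bool) (fun x : List Bool => x) f :=
    PC.comp (g := f) (f := fun x => x) h1 R591.rawOut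
  exact PC.comp (g := fun x => x) (f := f) PC.rawIn h2

theorem polyTime_of_poly' {f : List Bool → List Bool} (hf : Poly f) : PolyTime f :=
  PC.toPolyTime (R591.raw hf)

@[fun_prop]
theorem poly_pairBits {α : Type} [TEnc α] {f g : α → List Bool} (hf : Poly f) (hg : Poly g) :
    Poly (fun a => pairBits (f a) (g a)) := by
  unfold pairBits
  fun_prop

@[fun_prop]
theorem poly_unpair_comp {α : Type} [TEnc α] {y : α → List Bool} (hy : Poly y) :
    Poly (fun a => unpair (y a)) := poly_unpair.comp hy

theorem length_pairBits (x w : List Bool) : (pairBits x w).length = 2 * x.length + 1 + w.length := by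
  simp [pairBits]
  omega

/-- The output length of a polynomial-time function is polynomially bounded. -/
theorem length_bound {f : List Bool → List Bool} (hf : PolyTime f) :
    ∃ p : Polynomial ℕ, ∀ x, (f x).length ≤ p.eval x.length := by
  have h1 : PC (fun x : List Bool => x) (fun x : List Bool => x) f :=
    H642R2.TMSim.polyTime_toPC hf
  obtain ⟨p, hp⟩ := h1.length_le
  exact ⟨p, hp⟩

/-! ### Running a query algorithm -/

/-- `Correct` for the algorithm computing its actions with `f` from the input `z`. -/
def CorrectF (f : List Bool → List Bool) (A : Set (List Bool)) (z h : List Bool) : Prop :=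
  ∀ (i : ℕ) (hi : i < h.length), ∃ q : List Bool, f (pairBits z (h.take i)) = false :: q ∧
    (h[i] = true ↔ q ∈ A)

/-- `YesCorrect` for the algorithm computing its actions with `f` from the input `z`. -/
def YesCorrectF (f : List Bool → List Bool) (A : Set (List Bool)) (z h : List Bool) : Prop :=
  ∀ (i : ℕ) (hi : i < h.length), ∃ q : List Bool, f (pairBits z (h.take i)) = false :: q ∧
    (h[i] = true → q ∈ A)

/-- `Decides` for the algorithm computing its actions with `f` from the input `z`. -/
def DecidesF (f : List Bool → List Bool) (A : Set (List Bool)) (z : List Bool) (r : ℕ)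
    (P : Prop) : Prop :=
  ∃ h : List Bool, h.length ≤ r ∧ CorrectF f A z h ∧ (∀ q, f (pairBits z h) ≠ false :: q) ∧
    (f (pairBits z h) = [true] ↔ P)

/-- `YesQueries` for the algorithm computing its actions with `f` from the input `z`. -/
def YesQueriesF (f : List Bool → List Bool) (A : Set (List Bool)) (z : List Bool) (r : ℕ) :
    Set (List Bool) :=
  {q | q ∈ A ∧ ∃ h : List Bool, h.length < r ∧ YesCorrectF f A z h ∧
    f (pairBits z h) = false :: q}

theorem decidesF_iff {f : List Bool → List Bool} {A : Set (List Bool)} {x a : List Bool} {r : ℕ}
    {P : Prop} : DecidesF f A (pairBits x a) r P ↔ Decides (alg f x a) A r P := Iff.rfl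

theorem yesQueriesF_eq {f : List Bool → List Bool} {A : Set (List Bool)} {x a : List Bool} {r : ℕ} :
    YesQueriesF f A (pairBits x a) r = YesQueries (alg f x a) A r := rfl

/-- One round: the state consists of the answers received so far and of the verdict. -/
def hst (f : List Bool → List Bool) (O : List Bool → Bool) (z : List Bool)
    (s : List Bool × Option Bool) : List Bool × Option Bool :=
  if s.2.isSome then s else
    if (f (pairBits z s.1)).head? = some false then (s.1 ++ [O (f (pairBits z s.1)).tail], none)
    else (s.1, some (decide (f (pairBits z s.1) = [true])))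

/-- The verdict after `k` rounds. -/
def run (f : List Bool → List Bool) (O : List Bool → Bool) (z : List Bool) (k : ℕ) :
    Option Bool := ((hst f O z)^[k] ([], none)).2

theorem hst_query {f : List Bool → List Bool} {O : List Bool → Bool} {z h q : List Bool}
    (hq : f (pairBits z h) = false :: q) : hst f O z (h, none) = (h ++ [O q], none) := by
  simp [hst, hq]

theorem head?_ne_false {l : List Bool} (h : ∀ q, l ≠ false :: q) : l.head? ≠ some false := by
  intro h1
  cases l with
  | nil => simp at h1
  | cons b q =>
    simp only [List.head?_cons, Option.some.injEq] at h1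
    subst h1
    exact h q rfl

theorem hst_halt {f : List Bool → List Bool} {O : List Bool → Bool} {z h : List Bool}
    (hq : ∀ q, f (pairBits z h) ≠ false :: q) :
    hst f O z (h, none) = (h, some (decide (f (pairBits z h) = [true]))) := by
  have := head?_ne_false hq
  simp [hst, this]

theorem hst_done {f : List Bool → List Bool} {O : List Bool → Bool} {z h : List Bool} {b : Bool} :
    hst f O z (h, some b) = (h, some b) := by
  simp [hst]

theorem hst_iterate_done {f : List Bool → List Bool} {O : List Bool → Bool} {z h : List Bool}
    {b : Bool} : ∀ k, (hst f O z)^[k] (h, some b) = (h, some b)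
  | 0 => rfl
  | k + 1 => by rw [Function.iterate_succ_apply, hst_done, hst_iterate_done k]

theorem CorrectF.take {f : List Bool → List Bool} {A : Set (List Bool)} {z h : List Bool}
    (hc : CorrectF f A z h) (k : ℕ) : CorrectF f A z (h.take k) := by
  intro i hi
  rw [List.length_take] at hi
  obtain ⟨q, hq, hq'⟩ := hc i (by omega)
  refine ⟨q, ?_, ?_⟩
  · rw [List.take_take, min_eq_left (by omega)]
    exact hq
  · rw [List.getElem_take]
    exact hq'

theorem CorrectF.yes {f : List Bool → List Bool} {A : Set (List Bool)} {z h : List Bool}
    (hc : CorrectF f A z h) : YesCorrectF f A z h := by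
  intro i hi
  obtain ⟨q, hq, hq'⟩ := hc i hi
  exact ⟨q, hq, hq'.1⟩

theorem run_correct {f : List Bool → List Bool} {A : Set (List Bool)} {z h : List Bool}
    {O : List Bool → Bool} (hc : CorrectF f A z h)
    (hO : ∀ h' q, h'.length < h.length → CorrectF f A z h' → f (pairBits z h') = false :: q →
      (O q = true ↔ q ∈ A)) :
    ∀ i ≤ h.length, (hst f O z)^[i] ([], none) = (h.take i, none)
  | 0, _ => by simp
  | i + 1, hi => by
    rw [Function.iterate_succ_apply', run_correct hc hO i (by omega)]
    obtain ⟨q, hq, hq'⟩ := hc i (by omega)
    rw [hst_query hq]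
    have h1 := hO (h.take i) q (by rw [List.length_take]; omega) (hc.take i) hq
    have h2 : O q = h[i] := by
      rw [Bool.eq_iff_iff, h1, hq']
    rw [h2, List.take_succ_eq_append_getElem (by omega)]

open Classical in
/-- If the oracle `O` answers the queries of the correct computation correctly, then the run has
the correct verdict. -/
theorem run_decides {f : List Bool → List Bool} {A : Set (List Bool)} {z : List Bool} {r : ℕ}
    {P : Prop} {O : List Bool → Bool} (hd : DecidesF f A z r P)
    (hO : ∀ h' q, h'.length < r → CorrectF f A z h' → f (pairBits z h') = false :: q →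
      (O q = true ↔ q ∈ A)) {k : ℕ} (hk : r < k) : run f O z k = some (decide P) := by
  obtain ⟨h, h1, h2, h3, h4⟩ := hd
  have h5 := run_correct h2 (fun h' q hl => hO h' q (by omega)) h.length le_rfl
  rw [List.take_length] at h5
  obtain ⟨m, rfl⟩ : ∃ m, k = m + 1 + h.length := ⟨k - 1 - h.length, by omega⟩
  unfold run
  rw [Function.iterate_add_apply, h5, Function.iterate_succ_apply, hst_halt h3,
    hst_iterate_done]
  simp only [Option.some.injEq]
  rw [decide_eq_decide]
  exact h4

theorem length_hst_iterate (f : List Bool → List Bool) (O : List Bool → Bool) (z : List Bool) :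
    ∀ k, ((hst f O z)^[k] ([], none)).1.length ≤ k
  | 0 => by simp
  | k + 1 => by
    rw [Function.iterate_succ_apply']
    have ih := length_hst_iterate f O z k
    generalize (hst f O z)^[k] ([], none) = s at ih
    unfold hst
    split_ifs
    · omega
    · simp; omega
    · simp; omega

theorem poly_run {α : Type} [TEnc α] {f : List Bool → List Bool} {O : α → List Bool → Bool}
    {z : α → List Bool} {k : α → ℕ} (hf : Poly f) (hO : Poly (fun p : α × List Bool => O p.1 p.2))
    (hz : Poly z) (hk : UPoly k) : Poly (fun a => run f (O a) (z a) (k a)) := by
  have hstep : Poly (fun p : α × List Bool × Option Bool => hst f (O p.1) (z p.1) p.2) := by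
    have h1 : Poly (fun p : α × List Bool × Option Bool => f (pairBits (z p.1) p.2.1)) :=
      hf.comp (poly_pairBits (hz.comp (by fun_prop)) (by fun_prop))
    have h2 : Poly (fun p : α × List Bool × Option Bool =>
        O p.1 (f (pairBits (z p.1) p.2.1)).tail) :=
      hO.comp (f := fun p : α × List Bool × Option Bool =>
        (p.1, (f (pairBits (z p.1) p.2.1)).tail)) (by fun_prop)
    have h3 : Poly (fun p : α × List Bool × Option Bool => p.2.2.isSome) :=
      Poly.isSome (by fun_prop)
    unfold hst
    refine Poly.ite (Poly.decide_bool h3) (by fun_prop) (Poly.ite (by fun_prop) ?_ ?_)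
    · fun_prop
    · fun_prop
  obtain ⟨q, hq⟩ := Poly.sz_le hk
  have hmain : Poly (fun a => (hst f (O a) (z a))^[(List.replicate (k a) ()).length]
      (([], none) : List Bool × Option Bool)) := by
    refine Poly.iterLen (l := fun a => List.replicate (k a) ()) (s := fun _ => ([], none))
      (F := fun a => hst f (O a) (z a)) hk (by fun_prop) hstep (4 * q + 20) ?_
    intro a j hj
    have h1 := length_hst_iterate f (O a) (z a) j
    have h2 := hq a
    have h3 := length_lt_sz (List.replicate (k a) ())
    generalize (hst f (O a) (z a))^[j] ([], none) = s at h1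
    obtain ⟨h, v⟩ := s
    have h4 := sz_listBool_le h
    have h5 : sz v ≤ 5 := by
      cases v with
      | none => simp
      | some b => cases b <;> simp
    simp only [sz_pair, Polynomial.eval_add, Polynomial.eval_mul, Polynomial.eval_ofNat]
    simp only at h1
    omega
  refine (Poly.snd hmain).congr fun a => ?_
  rw [List.length_replicate]
  rfl

/-! ### All short strings -/

/-- All bit strings of length at most `k`. -/
def allStr : ℕ → List (List Bool)
  | 0 => [[]]
  | k + 1 => [] :: (allStr k).flatMap (fun z => [false :: z, true :: z])

theorem mem_allStr {z : List Bool} : ∀ {k : ℕ}, z ∈ allStr k ↔ z.length ≤ k := by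
  intro k
  induction k generalizing z with
  | zero =>
    rw [allStr, List.mem_singleton]
    constructor
    · rintro rfl; simp
    · intro h; exact List.length_eq_zero_iff.1 (by omega)
  | succ k ih =>
    rw [allStr, List.mem_cons, List.mem_flatMap]
    constructor
    · rintro (rfl | ⟨y, hy, hz⟩)
      · simp
      · have := ih.1 hy
        simp only [List.mem_cons, List.not_mem_nil, or_false] at hz
        rcases hz with rfl | rfl <;> simp <;> omega
    · intro h
      cases z with
      | nil => left; rfl
      | cons b z =>
        right
        refine ⟨z, ih.2 (by simpa using h), ?_⟩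
        cases b <;> simp

theorem length_allStr : ∀ k, (allStr k).length + 1 = 2 ^ (k + 1)
  | 0 => rfl
  | k + 1 => by
    have ih := length_allStr k
    have h : ∀ l : List (List Bool),
        (l.flatMap (fun z => [false :: z, true :: z])).length = 2 * l.length := by
      intro l
      induction l with
      | nil => rfl
      | cons a l ih => simp only [List.flatMap_cons, List.length_append, ih, List.length_cons,
          List.length_nil]; omega
    rw [allStr, List.length_cons, h, pow_succ]
    omega

/-- One step of the generation, guarded by the length of the padding. -/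
def grow (pad : List Unit) (l : List (List Bool)) : List (List Bool) :=
  if l.length ≤ pad.length then [] :: l.flatMap (fun z => [false :: z, true :: z]) else l

/-- Guarded generation of all bit strings of length at most `k`. -/
def allB (k : ℕ) (pad : List Unit) : List (List Bool) := (grow pad)^[k] [[]]

theorem allB_eq {pad : List Unit} : ∀ {k : ℕ}, 2 ^ k ≤ pad.length → allB k pad = allStr k := by
  intro k hk
  have key : ∀ j ≤ k, (grow pad)^[j] [[]] = allStr j := by
    intro j
    induction j with
    | zero => intro _; rfl
    | succ j ih =>
      intro hj
      rw [Function.iterate_succ_apply', ih (by omega)]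
      have h1 := length_allStr j
      have h2 : 2 ^ (j + 1) ≤ 2 ^ k := Nat.pow_le_pow_right (by norm_num) hj
      unfold grow
      rw [if_pos (by omega)]
      rfl
  exact key k le_rfl

theorem grow_inv (pad : List Unit) : ∀ k, ((grow pad)^[k] [[]]).length ≤ 2 * pad.length + 1 ∧
    ∀ z ∈ (grow pad)^[k] [[]], z.length ≤ k
  | 0 => by simp
  | k + 1 => by
    rw [Function.iterate_succ_apply']
    obtain ⟨h1, h2⟩ := grow_inv pad k
    generalize (grow pad)^[k] [[]] = l at h1 h2
    have h : (l.flatMap (fun z => [false :: z, true :: z])).length = 2 * l.length := by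
      clear h1 h2
      induction l with
      | nil => rfl
      | cons a l ih => simp only [List.flatMap_cons, List.length_append, ih, List.length_cons,
          List.length_nil]; omega
    unfold grow
    split_ifs with h3
    · refine ⟨by rw [List.length_cons, h]; omega, ?_⟩
      intro z hz
      rw [List.mem_cons, List.mem_flatMap] at hz
      rcases hz with rfl | ⟨y, hy, hz⟩
      · simp
      · have := h2 y hy
        simp only [List.mem_cons, List.not_mem_nil, or_false] at hz
        rcases hz with rfl | rfl <;> simp <;> omega
    · exact ⟨h1, fun z hz => by have := h2 z hz; omega⟩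

theorem poly_allB {α : Type} [TEnc α] {k : α → ℕ} {pad : α → List Unit} (hk : UPoly k)
    (hpad : Poly pad) : Poly (fun a => allB (k a) (pad a)) := by
  obtain ⟨q, hq⟩ := Poly.sz_le hk
  obtain ⟨q', hq'⟩ := Poly.sz_le hpad
  have hmain : Poly (fun a => (grow (pad a))^[(List.replicate (k a) ()).length] [[]]) := by
    refine Poly.iterLen (l := fun a => List.replicate (k a) ()) (s := fun _ => [[]])
      (F := fun a => grow (pad a)) hk (by fun_prop) ?_ ((2 * q' + 1) * (4 * q + 2) + 1) ?_
    · have h1 : Poly (fun p : α × List (List Bool) => pad p.1) := hpad.comp (by fun_prop)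
      unfold grow
      fun_prop
    · intro a j hj
      obtain ⟨h1, h2⟩ := grow_inv (pad a) j
      rw [List.length_replicate] at hj
      generalize (grow (pad a))^[j] [[]] = l at h1 h2
      have h3 := hq a
      have h4 := length_lt_sz (List.replicate (k a) ())
      rw [List.length_replicate] at h4
      have h5 := hq' a
      have h6 := length_lt_sz (pad a)
      have h7 := sz_le_length_mul l (4 * j + 1) (fun z hz => by
        have := h2 z hz
        have := sz_listBool_le z
        omega)
      refine h7.trans ?_
      simp only [Polynomial.eval_add, Polynomial.eval_mul, Polynomial.eval_one,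
        Polynomial.eval_ofNat]
      gcongr
      · omega
      · omega
      · norm_num
  refine hmain.congr fun a => ?_
  rw [List.length_replicate]
  rfl

end Pool.Agent.H660R2.NX
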