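import Pool.Agent.H660R2.NX.Run

/-!
# A universal set in `NEXP`
-/

namespace Pool.Agent.H660R2.NX

open Pool.Agent.NPC Turing
open TDec (dec dec_toT toT_dec poly_dec)

attribute [local irreducible] unpair

/-- Codes of programs. -/
abbrev Code : Type := T × List Unit

/-- The test made by the universal verifier on the instance `y` and the certificate `w`. -/
def vk (y w : List Bool) : Bool :=
  (unbits (Code × List Bool × List Unit) y).elim false (fun i =>
    decide (U i.1 (pairBits i.2.1 (unpair w).1) ((unpair w).2.map (fun _ => ())).length =
      some [true]))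

/-- The universal verifier. -/
def VK (v : List Bool) : List Bool := [vk (unpair v).1 (unpair v).2]

/-- The universal set. -/
def KSet : Set (List Bool) := {y | ∃ w : List Bool, w.length ≤ 2 ^ y.length ∧ vk y w = true}

theorem poly_vk {α : Type} [TEnc α] {y w : α → List Bool} (hy : Poly y) (hw : Poly w) :
    Poly (fun a => vk (y a) (w a)) := by
  unfold vk
  have h0 : Poly (unbits (Code × List Bool × List Unit)) := poly_unbits
  have h1 : Poly (fun a => unbits (Code × List Bool × List Unit) (y a)) := h0.comp hy
  refine Poly.optElim h1 (by fun_prop) ?_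
  refine Poly.dec_eq (f := fun p : α × (Code × List Bool × List Unit) =>
    U p.2.1 (pairBits p.2.2.1 (unpair (w p.1)).1)
      ((unpair (w p.1)).2.map (fun _ => ())).length) (g := fun _ => some [true]) ?_ (by fun_prop)
  exact poly_U.comp (f := fun p : α × (Code × List Bool × List Unit) =>
    (p.2.1, pairBits p.2.2.1 (unpair (w p.1)).1, (unpair (w p.1)).2.map (fun _ => ())))
    (by fun_prop)

theorem polyTime_VK : PolyTime VK := by
  have h1 : Poly (fun v : List Bool => vk (unpair v).1 (unpair v).2) := by
    exact poly_vk (by fun_prop) (by fun_prop)
  exact polyTime_of_poly h1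

theorem inNEXP_KSet : InNEXP KSet := by
  refine ⟨VK, Polynomial.X, polyTime_VK, fun y => ?_⟩
  simp only [Polynomial.eval_X, VK, unpair_pairBits, KSet, Set.mem_ofPred_eq, List.cons.injEq,
    and_true]

/-- `e` is a code of `f`, with running time `p`. -/
def IsCode (e : Code) (f : List Bool → List Bool) (p : Polynomial ℕ) : Prop :=
  ∀ x t, p.eval x.length ≤ t → U e x t = some (f x)

theorem IsCode.eq {e : Code} {f : List Bool → List Bool} {p : Polynomial ℕ} (h : IsCode e f p)
    {x y : List Bool} {t : ℕ} (hy : U e x t = some y) : y = f x := by
  have h1 := U_mono (le_max_left t (p.eval x.length)) hy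
  have h2 := h x _ (le_max_right t (p.eval x.length))
  rw [h1] at h2
  exact Option.some.inj h2

/-- The instance of the universal set asking for a certificate `w` with `V (pairBits z w) = [true]`,
where `e` is a code of `V`; the last component is padding. -/
def ins (e : Code) (z : List Bool) (m : ℕ) : List Bool := bits (e, z, List.replicate m ())

theorem ins_sound {e : Code} {V : List Bool → List Bool} {p : Polynomial ℕ} (he : IsCode e V p)
    {z : List Bool} {m : ℕ} (h : ins e z m ∈ KSet) : ∃ w, V (pairBits z w) = [true] := by
  obtain ⟨w, _, hw⟩ := h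
  unfold vk ins at hw
  rw [unbits_bits] at hw
  simp only [Option.elim_some, decide_eq_true_eq] at hw
  exact ⟨(unpair w).1, (he.eq hw).symm⟩

theorem ins_complete {e : Code} {V : List Bool → List Bool} {p : Polynomial ℕ}
    (he : IsCode e V p) {z w : List Bool} {m : ℕ} (h : V (pairBits z w) = [true])
    (hm : 2 * w.length + 1 + p.eval (pairBits z w).length ≤ 2 ^ m) : ins e z m ∈ KSet := by
  refine ⟨pairBits w (List.replicate (p.eval (pairBits z w).length) false), ?_, ?_⟩
  · rw [length_pairBits, List.length_replicate]
    refine hm.trans (Nat.pow_le_pow_right (by norm_num) ?_)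
    have h1 := length_lt_sz (List.replicate m ())
    rw [List.length_replicate] at h1
    unfold ins
    rw [bits_length]
    simp only [sz_pair]
    omega
  · unfold vk ins
    rw [unbits_bits]
    simp only [Option.elim_some, decide_eq_true_eq, unpair_pairBits, List.length_map,
      List.length_replicate]
    rw [he _ _ le_rfl, h]

end Pool.Agent.H660R2.NX
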