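import Pool.Agent.H660R2.NX.UnivSet

/-!
# Verifiers for the number of potential yes-queries
-/

namespace Pool.Agent.H660R2.NX

open Pool.Agent.NPC Turing
open TDec (dec dec_toT toT_dec poly_dec)

attribute [local irreducible] unpair

/-! ### Prefixes and absence of repetitions (proofs following `H601R2`) -/

theorem take_eq {β : Type} (l : List β) (k : ℕ) :
    (l.zipIdx.filter (fun q => decide (q.2 < k))).map (fun q => q.1) = l.take k := by
  have e1 : ∀ q ∈ (l.take k).zipIdx, q.2 < k := by
    intro q hq
    rw [List.mem_zipIdx_iff_getElem?] at hq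
    by_contra hlt
    rw [List.getElem?_eq_none (by rw [List.length_take]; omega)] at hq
    simp at hq
  by_cases hk : k ≤ l.length
  · have e2 : ∀ q ∈ (l.drop k).zipIdx (0 + (l.take k).length), ¬ q.2 < k := by
      intro q hq
      have := List.le_snd_of_mem_zipIdx (x := q) hq
      rw [List.length_take] at this
      omega
    conv_lhs => rw [← List.take_append_drop k l]
    rw [List.zipIdx_append, List.filter_append]
    have f1 : (l.take k).zipIdx.filter (fun q => decide (q.2 < k)) = (l.take k).zipIdx := by
      rw [List.filter_eq_self]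
      intro q hq
      simpa using e1 q hq
    have f2 : ((l.drop k).zipIdx (0 + (l.take k).length)).filter (fun q => decide (q.2 < k)) =
        [] := by
      rw [List.filter_eq_nil_iff]
      intro q hq
      simpa using e2 q hq
    rw [f1, f2, List.append_nil]
    exact List.zipIdx_map_fst 0 _
  · rw [List.take_of_length_le (by omega)] at e1 ⊢
    have f1 : l.zipIdx.filter (fun q => decide (q.2 < k)) = l.zipIdx := by
      rw [List.filter_eq_self]
      intro q hq
      simpa using e1 q hq
    rw [f1]
    exact List.zipIdx_map_fst 0 _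

@[fun_prop]
theorem poly_take {α β : Type} [TEnc α] [TEnc β] {l : α → List β} {k : α → ℕ} (hl : Poly l)
    (hk : Poly k) : Poly (fun a => (l a).take (k a)) := by
  have h : Poly (fun a => ((l a).zipIdx.filter (fun q => decide (q.2 < k a))).map
    (fun q => q.1)) := by fun_prop
  exact h.congr fun a => take_eq _ _

theorem nodup_iff_zipIdx {β : Type} (l : List β) :
    (∀ x ∈ l.zipIdx, ∀ y ∈ l.zipIdx, x.1 ≠ y.1 ∨ x.2 = y.2) ↔ l.Nodup := by
  rw [List.nodup_iff_injective_getElem]
  constructor
  · intro h i j hij
    have h1 := h (l[i], i.1) (by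
      rw [List.mem_zipIdx_iff_getElem?]; simp) (l[j], j.1) (by
      rw [List.mem_zipIdx_iff_getElem?]; simp)
    simp only at h1 hij
    rcases h1 with h1 | h1
    · exact absurd hij h1
    · exact Fin.ext h1
  · rintro h ⟨x, i⟩ hx ⟨y, j⟩ hy
    rw [List.mem_zipIdx_iff_getElem?] at hx hy
    simp only at hx hy ⊢
    by_cases hxy : x = y
    · right
      obtain ⟨hi, hi'⟩ := List.getElem?_eq_some_iff.1 hx
      obtain ⟨hj, hj'⟩ := List.getElem?_eq_some_iff.1 hy
      have := @h ⟨i, hi⟩ ⟨j, hj⟩ (by simp only; rw [hi', hj', hxy])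
      simpa using this
    · exact Or.inl hxy

/-! ### Entries -/

/-- A certified potential yes-query: the query, the answers leading to it, certificates for the
positive answers, a certificate for the query. -/
abbrev Entry : Type := List Bool × List Bool × List (List Bool) × List Bool

/-- The test of an entry. -/
def entryOk (f : List Bool → List Bool) (vq : List Bool → List Bool → Bool) (z : List Bool)
    (r : ℕ) (e : Entry) : Bool :=
  decide (e.2.1.length < r) && (decide (f (pairBits z e.2.1) = false :: e.1) && (vq e.1 e.2.2.2 &&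
  (List.range e.2.1.length).all (fun i =>
    decide ((f (pairBits z (e.2.1.take i))).head? = some false) &&
    (!(e.2.1.getD i false) || vq (f (pairBits z (e.2.1.take i))).tail (e.2.2.1.getD i [])))))

/-- The test of a list of entries. -/
def listOk (f : List Bool → List Bool) (vq : List Bool → List Bool → Bool) (z : List Bool)
    (r : ℕ) (l : List Entry) : Bool :=
  l.all (fun e => entryOk f vq z r e) &&
    (l.map (fun e => e.1)).zipIdx.all (fun x => (l.map (fun e => e.1)).zipIdx.all (fun y =>
      !(decide (x.1 = y.1)) || decide (x.2 = y.2)))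

section

variable {f : List Bool → List Bool} {A : Set (List Bool)} {vq : List Bool → List Bool → Bool}
  {z : List Bool} {r : ℕ}

theorem head?_tail {l : List Bool} (h : l.head? = some false) : l = false :: l.tail := by
  cases l with
  | nil => simp at h
  | cons b l => simp only [List.head?_cons, Option.some.injEq] at h; subst h; rfl

theorem entryOk_sound (hvq : ∀ q w, vq q w = true → q ∈ A) {e : Entry}
    (h : entryOk f vq z r e = true) : e.1 ∈ YesQueriesF f A z r := by
  unfold entryOk at h
  simp only [Bool.and_eq_true, decide_eq_true_eq, List.all_eq_true, List.mem_range,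
    Bool.or_eq_true, Bool.not_eq_true'] at h
  obtain ⟨h1, h2, h3, h4⟩ := h
  refine ⟨hvq _ _ h3, e.2.1, h1, ?_, h2⟩
  intro i hi
  obtain ⟨h5, h6⟩ := h4 i hi
  refine ⟨_, head?_tail h5, fun h7 => ?_⟩
  rcases h6 with h6 | h6
  · rw [List.getD_eq_getElem _ _ hi, h7] at h6
    simp at h6
  · exact hvq _ _ h6

theorem entry_exists {pA pf : Polynomial ℕ}
    (hvq : ∀ q ∈ A, ∃ w : List Bool, w.length ≤ pA.eval q.length ∧ vq q w = true)
    (hpf : ∀ x, (f x).length ≤ pf.eval x.length) {q : List Bool}
    (hq : q ∈ YesQueriesF f A z r) :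
    ∃ e : Entry, entryOk f vq z r e = true ∧ e.1 = q ∧
      sz e ≤ 4 * pf.eval (2 * z.length + 1 + r) + 4 * r +
        (r + 1) * (4 * pA.eval (pf.eval (2 * z.length + 1 + r)) + 2) + 10 := by
  classical
  obtain ⟨hqA, h, hl, hh, hfq⟩ := hq
  have hlen : ∀ (h' q' : List Bool), h'.length ≤ r → f (pairBits z h') = false :: q' →
      q'.length ≤ pf.eval (2 * z.length + 1 + r) := by
    intro h' q' hl' hq'
    have h1 := hpf (pairBits z h')
    rw [hq', length_pairBits, List.length_cons] at h1
    have h2 := eval_mono pf (show 2 * z.length + 1 + h'.length ≤ 2 * z.length + 1 + r by omega)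
    omega
  obtain ⟨w, hw, hw'⟩ := hvq q hqA
  have hcert : ∀ i : Fin h.length, ∃ w : List Bool,
      w.length ≤ pA.eval (pf.eval (2 * z.length + 1 + r)) ∧
      ∃ q', f (pairBits z (h.take i)) = false :: q' ∧ (h[i] = true → vq q' w = true) := by
    intro i
    obtain ⟨q', hq', hqi⟩ := hh i.1 i.2
    by_cases hi : h[i] = true
    · obtain ⟨w, hw, hw'⟩ := hvq q' (hqi hi)
      refine ⟨w, hw.trans (eval_mono pA (hlen (h.take i) q' ?_ hq')), q', hq', fun _ => hw'⟩
      rw [List.length_take]; omega
    · exact ⟨[], by simp, q', hq', fun h => absurd h hi⟩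
  choose cw hcw using hcert
  refine ⟨(q, h, List.ofFn cw, w), ?_, rfl, ?_⟩
  · unfold entryOk
    simp only [Bool.and_eq_true, decide_eq_true_eq, List.all_eq_true, List.mem_range,
      Bool.or_eq_true, Bool.not_eq_true']
    refine ⟨hl, hfq, hw', fun i hi => ?_⟩
    obtain ⟨-, q', hq', hqi⟩ := hcw ⟨i, hi⟩
    simp only at hq'
    refine ⟨by rw [hq']; rfl, ?_⟩
    rw [hq', List.tail_cons, List.getD_eq_getElem _ _ hi,
      List.getD_eq_getElem _ _ (by rw [List.length_ofFn]; exact hi), List.getElem_ofFn]
    by_cases h5 : h[i] = true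
    · right; exact hqi h5
    · left; simpa using h5
  · have h1 := sz_listBool_le q
    have h2 := sz_listBool_le h
    have h3 := sz_listBool_le w
    have h4 := hlen h q (by omega) hfq
    have h5 := eval_mono pA h4
    have h6 := sz_le_length_mul (List.ofFn cw)
      (4 * pA.eval (pf.eval (2 * z.length + 1 + r)) + 1) (by
        intro v hv
        rw [List.mem_ofFn] at hv
        obtain ⟨i, rfl⟩ := hv
        have := sz_listBool_le (cw i)
        have := (hcw i).1
        omega)
    rw [List.length_ofFn] at h6
    have h7 : h.length * (4 * pA.eval (pf.eval (2 * z.length + 1 + r)) + 1 + 1) ≤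
        r * (4 * pA.eval (pf.eval (2 * z.length + 1 + r)) + 2) :=
      Nat.mul_le_mul (by omega) (by omega)
    simp only [sz_pair]
    nlinarith [h1, h2, h3, h4, h5, h6, h7]

theorem listOk_iff {l : List Entry} : listOk f vq z r l = true ↔
    (∀ e ∈ l, entryOk f vq z r e = true) ∧ (l.map (fun e => e.1)).Nodup := by
  unfold listOk
  rw [← nodup_iff_zipIdx]
  simp only [Bool.and_eq_true, List.all_eq_true, Bool.or_eq_true, Bool.not_eq_true',
    decide_eq_false_iff_not, decide_eq_true_eq, ne_eq]

theorem listOk_le (hvq : ∀ q w, vq q w = true → q ∈ A) (hY : (YesQueriesF f A z r).Finite)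
    {l : List Entry} (h : listOk f vq z r l = true) : l.length ≤ (YesQueriesF f A z r).ncard := by
  classical
  rw [listOk_iff] at h
  obtain ⟨h1, h2⟩ := h
  have h3 : ((l.map (fun e => e.1)).toFinset : Set (List Bool)) ⊆ YesQueriesF f A z r := by
    intro q hq
    simp only [List.coe_toFinset, Set.mem_ofPred_eq, List.mem_map] at hq
    obtain ⟨e, he, rfl⟩ := hq
    exact entryOk_sound hvq (h1 e he)
  have h4 := Set.ncard_le_ncard h3 hY
  rw [Set.ncard_coe_finset, List.toFinset_card_of_nodup h2, List.length_map] at h4
  exact h4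

theorem mem_of_listOk (hvq : ∀ q w, vq q w = true → q ∈ A) (hY : (YesQueriesF f A z r).Finite)
    {l : List Entry} (h : listOk f vq z r l = true)
    (hl : l.length = (YesQueriesF f A z r).ncard) (q : List Bool) :
    q ∈ l.map (fun e => e.1) ↔ q ∈ YesQueriesF f A z r := by
  classical
  rw [listOk_iff] at h
  obtain ⟨h1, h2⟩ := h
  have h3 : ((l.map (fun e => e.1)).toFinset : Set (List Bool)) ⊆ YesQueriesF f A z r := by
    intro q hq
    simp only [List.coe_toFinset, Set.mem_ofPred_eq, List.mem_map] at hq
    obtain ⟨e, he, rfl⟩ := hq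
    exact entryOk_sound hvq (h1 e he)
  have h4 := Set.eq_of_subset_of_ncard_le h3 (by
    rw [Set.ncard_coe_finset, List.toFinset_card_of_nodup h2, List.length_map, hl]) hY
  rw [← h4]
  simp

theorem list_exists {pA pf : Polynomial ℕ}
    (hvq : ∀ q ∈ A, ∃ w : List Bool, w.length ≤ pA.eval q.length ∧ vq q w = true)
    (hpf : ∀ x, (f x).length ≤ pf.eval x.length) (hY : (YesQueriesF f A z r).Finite) {t : ℕ}
    (ht : t ≤ (YesQueriesF f A z r).ncard) :
    ∃ l : List Entry, listOk f vq z r l = true ∧ l.length = t ∧
      sz l ≤ (t + 1) * (4 * pf.eval (2 * z.length + 1 + r) + 4 * r +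
        (r + 1) * (4 * pA.eval (pf.eval (2 * z.length + 1 + r)) + 2) + 11) := by
  classical
  rw [Set.ncard_eq_toFinset_card _ hY] at ht
  obtain ⟨S, hS, hSc⟩ := Finset.exists_subset_card_eq ht
  have hex : ∀ q : List Bool, q ∈ S.toList → ∃ e : Entry, entryOk f vq z r e = true ∧ e.1 = q ∧
      sz e ≤ 4 * pf.eval (2 * z.length + 1 + r) + 4 * r +
        (r + 1) * (4 * pA.eval (pf.eval (2 * z.length + 1 + r)) + 2) + 10 := by
    intro q hq
    rw [Finset.mem_toList] at hq
    have := hS hq
    rw [Set.Finite.mem_toFinset] at this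
    exact entry_exists hvq hpf this
  choose g hg using hex
  refine ⟨S.toList.attach.map (fun q => g q.1 q.2), ?_, ?_, ?_⟩
  · rw [listOk_iff]
    constructor
    · intro e he
      rw [List.mem_map] at he
      obtain ⟨q, -, rfl⟩ := he
      exact (hg q.1 q.2).1
    · have : (S.toList.attach.map (fun q => g q.1 q.2)).map (fun e => e.1) = S.toList := by
        rw [List.map_map]
        conv_rhs => rw [← List.attach_map_subtype_val S.toList]
        apply List.map_congr_left
        intro q _
        exact (hg q.1 q.2).2.1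
      rw [this]
      exact S.nodup_toList
  · rw [List.length_map, List.length_attach, Finset.length_toList, hSc]
  · have h1 := sz_le_length_mul (S.toList.attach.map (fun q => g q.1 q.2)) _ (by
      intro e he
      rw [List.mem_map] at he
      obtain ⟨q, -, rfl⟩ := he
      exact (hg q.1 q.2).2.2)
    rw [List.length_map, List.length_attach, Finset.length_toList, hSc] at h1
    refine h1.trans ?_
    generalize 4 * pf.eval (2 * z.length + 1 + r) + 4 * r +
        (r + 1) * (4 * pA.eval (pf.eval (2 * z.length + 1 + r)) + 2) = B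
    nlinarith

end

end Pool.Agent.H660R2.NX
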