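import Pool.Agent.H660R2.NX.Verif

/-!
# The verifiers are polynomial-time computable
-/

namespace Pool.Agent.H660R2.NX

open Pool.Agent.NPC Turing
open TDec (dec dec_toT toT_dec poly_dec)

attribute [local irreducible] unpair

variable {f : List Bool → List Bool} {A : Set (List Bool)} {vq : List Bool → List Bool → Bool}

theorem poly_entryOk {α : Type} [TEnc α] {z : α → List Bool} {r : α → ℕ} {e : α → Entry}
    (hf : Poly f) (hvq : Poly (fun p : List Bool × List Bool => vq p.1 p.2)) (hz : Poly z)
    (hr : Poly r) (he : Poly e) : Poly (fun a => entryOk f vq (z a) (r a) (e a)) := by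
  unfold entryOk
  have h1 : Poly (fun a => List.range (e a).2.1.length) :=
    NPC.Poly.range_length (by fun_prop)
  have hz' : Poly (fun p : α × ℕ => z p.1) := hz.comp (by fun_prop)
  have he' : Poly (fun p : α × ℕ => e p.1) := he.comp (by fun_prop)
  refine NPC.Poly.and (by fun_prop) (NPC.Poly.and (by fun_prop) (NPC.Poly.and (by fun_prop) ?_))
  refine NPC.Poly.all h1 ?_
  fun_prop

theorem poly_listOk {α : Type} [TEnc α] {z : α → List Bool} {r : α → ℕ} {l : α → List Entry}
    (hf : Poly f) (hvq : Poly (fun p : List Bool × List Bool => vq p.1 p.2)) (hz : Poly z)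
    (hr : Poly r) (hl : Poly l) : Poly (fun a => listOk f vq (z a) (r a) (l a)) := by
  unfold listOk
  refine NPC.Poly.and (NPC.Poly.all hl ?_) (by fun_prop)
  exact poly_entryOk hf hvq (by fun_prop) (by fun_prop) (by fun_prop)

/-- The first test: `w` lists `t` different potential yes-queries, with certificates. -/
def v1 (f : List Bool → List Bool) (vq : List Bool → List Bool → Bool) (r : Polynomial ℕ)
    (y w : List Bool) : Bool :=
  (unbits (List Bool × List Bool × ℕ) y).elim false (fun i =>
    (unbits (List Entry) w).elim false (fun l =>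
      decide (l.length = i.2.2) && listOk f vq (pairBits i.1 i.2.1) (r.eval i.1.length) l))

/-- The second test: the first test succeeds, and the algorithm accepts if the listed queries are
answered positively and all others negatively. -/
def v2 (f : List Bool → List Bool) (vq : List Bool → List Bool → Bool) (r : Polynomial ℕ)
    (y w : List Bool) : Bool :=
  (unbits (List Bool × List Bool × ℕ) y).elim false (fun i =>
    (unbits (List Entry) w).elim false (fun l =>
      (decide (l.length = i.2.2) && listOk f vq (pairBits i.1 i.2.1) (r.eval i.1.length) l) &&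
      decide (run f (fun q => decide (q ∈ l.map (fun e => e.1))) (pairBits i.1 i.2.1)
        (r.eval i.1.length + 1) = some true)))

/-- The function on pairs of bit strings given by a test. -/
def testFun (v : List Bool → List Bool → Bool) (x : List Bool) : List Bool :=
  [v (unpair x).1 (unpair x).2]

theorem polyTime_testFun {v : List Bool → List Bool → Bool}
    (hv : Poly (fun p : List Bool × List Bool => v p.1 p.2)) : PolyTime (testFun v) := by
  have h1 : Poly (fun x : List Bool => v (unpair x).1 (unpair x).2) :=
    hv.comp (f := fun x : List Bool => ((unpair x).1, (unpair x).2)) (by fun_prop)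
  exact polyTime_of_poly h1

theorem testFun_pairBits {v : List Bool → List Bool → Bool} {y w : List Bool} :
    testFun v (pairBits y w) = [true] ↔ v y w = true := by
  simp [testFun, unpair_pairBits]

theorem poly_v1 (hf : Poly f) (hvq : Poly (fun p : List Bool × List Bool => vq p.1 p.2))
    (r : Polynomial ℕ) : Poly (fun p : List Bool × List Bool => v1 f vq r p.1 p.2) := by
  unfold v1
  have h0 : Poly (unbits (List Bool × List Bool × ℕ)) := poly_unbits
  have h1 : Poly (unbits (List Entry)) := poly_unbits
  refine NPC.Poly.optElim (h0.comp (by fun_prop)) (by fun_prop) ?_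
  refine NPC.Poly.optElim (o := fun p : (List Bool × List Bool) × (List Bool × List Bool × ℕ) =>
    unbits (List Entry) p.1.2) (h1.comp (by fun_prop)) (by fun_prop) ?_
  refine NPC.Poly.and (by fun_prop) ?_
  exact poly_listOk hf hvq (by fun_prop)
    (UPoly.toPoly (UPoly.eval (UPoly.length (by fun_prop)) r)) (by fun_prop)

theorem poly_v2 (hf : Poly f) (hvq : Poly (fun p : List Bool × List Bool => vq p.1 p.2))
    (r : Polynomial ℕ) : Poly (fun p : List Bool × List Bool => v2 f vq r p.1 p.2) := by
  unfold v2
  have h0 : Poly (unbits (List Bool × List Bool × ℕ)) := poly_unbits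
  have h1 : Poly (unbits (List Entry)) := poly_unbits
  refine NPC.Poly.optElim (h0.comp (by fun_prop)) (by fun_prop) ?_
  refine NPC.Poly.optElim (o := fun p : (List Bool × List Bool) × (List Bool × List Bool × ℕ) =>
    unbits (List Entry) p.1.2) (h1.comp (by fun_prop)) (by fun_prop) ?_
  refine NPC.Poly.and (NPC.Poly.and (by fun_prop) ?_) ?_
  · exact poly_listOk hf hvq (by fun_prop)
      (UPoly.toPoly (UPoly.eval (UPoly.length (by fun_prop)) r)) (by fun_prop)
  · refine NPC.Poly.dec_eq ?_ (by fun_prop)
    exact poly_run hf (by fun_prop) (by fun_prop)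
      (UPoly.add (UPoly.eval (UPoly.length (by fun_prop)) r) (UPoly.const 1))

/-- The verifiers for the number of potential yes-queries and for acceptance. -/
theorem exists_verifiers {c : ℕ} {r : Polynomial ℕ} {a : ℕ → List Bool} (hf : PolyTime f)
    (hA : InNP A) (ha : ∀ n, (a n).length ≤ n ^ c + c) :
    ∃ (V₁ V₂ : List Bool → List Bool) (R : Polynomial ℕ), PolyTime V₁ ∧ PolyTime V₂ ∧
      ∀ x : List Bool, (YesQueriesF f A (pairBits x (a x.length)) (r.eval x.length)).Finite →
        (∀ t w, V₁ (pairBits (bits (x, a x.length, t)) w) = [true] →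
          t ≤ (YesQueriesF f A (pairBits x (a x.length)) (r.eval x.length)).ncard) ∧
        (∀ t ≤ (YesQueriesF f A (pairBits x (a x.length)) (r.eval x.length)).ncard,
          ∃ w : List Bool, w.length ≤ (t + 1) * R.eval x.length ∧
            V₁ (pairBits (bits (x, a x.length, t)) w) = [true]) ∧
        ∀ P : Prop, DecidesF f A (pairBits x (a x.length)) (r.eval x.length) P →
          ∀ t, t = (YesQueriesF f A (pairBits x (a x.length)) (r.eval x.length)).ncard →
          (∀ w, V₂ (pairBits (bits (x, a x.length, t)) w) = [true] → P) ∧
          (P → ∃ w : List Bool, w.length ≤ (t + 1) * R.eval x.length ∧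
            V₂ (pairBits (bits (x, a x.length, t)) w) = [true]) := by
  classical
  obtain ⟨V, pA, hV, hVA⟩ := hA
  obtain ⟨pf, hpf⟩ := length_bound hf
  have hf' := poly_of_polyTime hf
  have hV' := poly_of_polyTime hV
  let vq : List Bool → List Bool → Bool := fun q w =>
    decide (w.length ≤ pA.eval q.length) && decide (V (pairBits q w) = [true])
  have hvqP : Poly (fun p : List Bool × List Bool => vq p.1 p.2) := by
    have h1 : Poly (fun p : List Bool × List Bool => pA.eval p.1.length) :=
      UPoly.toPoly (UPoly.eval (UPoly.length (by fun_prop)) pA)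
    have h2 : Poly (fun p : List Bool × List Bool => V (pairBits p.1 p.2)) :=
      hV'.comp (by fun_prop)
    exact NPC.Poly.and (by fun_prop) (by fun_prop)
  have hvq1 : ∀ q w, vq q w = true → q ∈ A := by
    intro q w h
    simp only [vq, Bool.and_eq_true, decide_eq_true_eq] at h
    exact (hVA q).2 ⟨w, h.1, h.2⟩
  have hvq2 : ∀ q ∈ A, ∃ w : List Bool, w.length ≤ pA.eval q.length ∧ vq q w = true := by
    intro q hq
    obtain ⟨w, hw, hw'⟩ := (hVA q).1 hq
    exact ⟨w, hw, by simp [vq, hw, hw']⟩
  let Z : Polynomial ℕ := 2 * (2 * Polynomial.X + 1 + Polynomial.X ^ c + Polynomial.C c) + 1 + r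
  let R : Polynomial ℕ := 4 * pf.comp Z + 4 * r + (r + 1) * (4 * pA.comp (pf.comp Z) + 2) + 11
  have hZ : ∀ x : List Bool, 2 * (pairBits x (a x.length)).length + 1 + r.eval x.length ≤
      Z.eval x.length := by
    intro x
    have := ha x.length
    rw [length_pairBits]
    simp only [Z, Polynomial.eval_add, Polynomial.eval_mul, Polynomial.eval_ofNat,
      Polynomial.eval_X, Polynomial.eval_one, Polynomial.eval_pow, Polynomial.eval_C]
    omega
  have hR : ∀ x : List Bool, ∀ t : ℕ, (t + 1) *
      (4 * pf.eval (2 * (pairBits x (a x.length)).length + 1 + r.eval x.length) +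
        4 * r.eval x.length + (r.eval x.length + 1) *
        (4 * pA.eval (pf.eval (2 * (pairBits x (a x.length)).length + 1 + r.eval x.length)) + 2) +
        11) ≤ (t + 1) * R.eval x.length := by
    intro x t
    have h1 := eval_mono pf (hZ x)
    have h2 := eval_mono pA h1
    simp only [R, Polynomial.eval_add, Polynomial.eval_mul, Polynomial.eval_ofNat,
      Polynomial.eval_one, Polynomial.eval_comp]
    gcongr
  refine ⟨testFun (v1 f vq r), testFun (v2 f vq r), R, polyTime_testFun (poly_v1 hf' hvqP r),
    polyTime_testFun (poly_v2 hf' hvqP r), fun x hY => ⟨?_, ?_, ?_⟩⟩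
  · intro t w h
    rw [testFun_pairBits] at h
    unfold v1 at h
    rw [unbits_bits, Option.elim_some] at h
    cases hw : unbits (List Entry) w with
    | none => rw [hw] at h; simp at h
    | some l =>
      rw [hw, Option.elim_some] at h
      simp only [Bool.and_eq_true, decide_eq_true_eq] at h
      rw [← h.1]
      exact listOk_le hvq1 hY h.2
  · intro t ht
    obtain ⟨l, hl, hlt, hsz⟩ := list_exists hvq2 hpf hY ht
    refine ⟨bits l, by rw [bits_length]; exact hsz.trans (hR x t), ?_⟩
    rw [testFun_pairBits]
    unfold v1
    rw [unbits_bits, Option.elim_some, unbits_bits, Option.elim_some]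
    simp only [hlt, hl, decide_true, Bool.and_self]
  · intro P hP t ht
    have hrun : ∀ l : List Entry, listOk f vq (pairBits x (a x.length)) (r.eval x.length) l = true →
        l.length = t → run f (fun q => decide (q ∈ l.map (fun e => e.1)))
          (pairBits x (a x.length)) (r.eval x.length + 1) = some (decide P) := by
      intro l hl hlt
      refine run_decides hP ?_ (Nat.lt_succ_self _)
      intro h' q hl' hc hq
      rw [decide_eq_true_iff, mem_of_listOk hvq1 hY hl (hlt.trans ht)]
      constructor
      · intro h; exact h.1
      · intro h; exact ⟨h, h', hl', hc.yes, hq⟩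
    constructor
    · intro w h
      rw [testFun_pairBits] at h
      unfold v2 at h
      rw [unbits_bits, Option.elim_some] at h
      cases hw : unbits (List Entry) w with
      | none => rw [hw] at h; simp at h
      | some l =>
        rw [hw, Option.elim_some] at h
        simp only [Bool.and_eq_true, decide_eq_true_eq] at h
        have h1 := hrun l h.1.2 h.1.1
        rw [h.2] at h1
        simpa using h1
    · intro hP'
      obtain ⟨l, hl, hlt, hsz⟩ := list_exists hvq2 hpf hY ht.le
      refine ⟨bits l, by rw [bits_length]; exact hsz.trans (hR x t), ?_⟩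
      rw [testFun_pairBits]
      unfold v2
      rw [unbits_bits, Option.elim_some, unbits_bits, Option.elim_some]
      have h1 := hrun l hl hlt
      simp only [hlt, hl, decide_true, Bool.and_self, Bool.true_and, decide_eq_true_eq]
      rw [h1]
      simpa using hP'

end Pool.Agent.H660R2.NX
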